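import Pool.Agent.Lib.MP_7580b0_co.Assemble

/-!
# The abstract theorem: a Latin cube avoiding a sparse set
-/

namespace Pool.Agent.Lib.MP_7580b0_co

open Finset

namespace Base

open Classical

variable {V : Type*} [Fintype V] [DecidableEq V] {B : ℕ} (b : Base V B)

/-- a compatible choice of switches -/
theorem exists_choice (H : (Fin 4 → V) → Prop) (K : ℕ) (hK : 1 ≤ K)
    (h12 : ∀ c x y i, {c' | (b.Pt c c' ∧ b.ok c c' x ∧ b.ok c c' y) ∧
        ∃ t ∈ b.F12 c x y i c', H t}.ncard < 2 * B * K)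
    (h3a : ∀ c x y i, {c' | b.Pt c c' ∧ ∃ t ∈ b.F3a c x y i c', H t}.ncard < 2 * B * K)
    (h3b : ∀ c x y i, {c0 | b.Pt c0 c ∧ ∃ t ∈ b.F3b c x y i c0, H t}.ncard < 2 * B * K)
    (hn : 150 * B ^ 5 * K ≤ Fintype.card V) :
    ∃ f : V × V × V → V, (∀ u, b.Un H u → b.Opt H u (f u)) ∧
      ∀ u, b.Un H u → ∀ w, b.Un H w → u ≠ w → ∀ e, e ∈ b.Tr u (f u) → e ∉ b.Tr w (f w) := by
  have hB := b.B_pos
  have hB5 : B ≤ B ^ 5 := Nat.le_self_pow (by norm_num) B
  have hB5' : 0 < B ^ 5 := Nat.pow_pos hB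
  have : Nonempty V := ⟨b.z0⟩
  obtain ⟨f, hf1, hf2⟩ := select' (ι := V × V × V) (Ω := V)
    (fun u => univ.filter (fun c' => b.Opt H u c'))
    (fun u v w z => ∃ e ∈ b.Tr u v, e ∈ b.Tr w z)
    (fun u v w z ⟨e, h1, h2⟩ => ⟨e, h2, h1⟩) (64 * B ^ 5 * K)
    (by positivity) (univ.filter (fun u => b.Un H u))
    (by
      intro u hu
      have h1 := b.opt_card H K h12 u
      have h2 : B * 1 ≤ B ^ 5 * K := Nat.mul_le_mul hB5 hK
      have h3 : B * K ≤ B ^ 5 * K := Nat.mul_le_mul_right _ hB5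
      have e1 : 150 * B ^ 5 * K = 150 * (B ^ 5 * K) := by ring
      have e2 : 64 * B ^ 5 * K = 64 * (B ^ 5 * K) := by ring
      have e3 : 16 * B * K = 16 * (B * K) := by ring
      rw [e1] at hn
      rw [e3] at h1
      rw [e2]
      omega)
    (by
      intro u hu v hv
      have hu' : b.Un H u := by simpa using hu
      have hv' : b.Opt H u v := by simpa using hv
      have h1 := b.conflict_card H K h3a h3b u hu' v hv'
      intro S hS
      have h4 : S.card ≤ 16 * B ^ 5 * K := by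
        refine le_trans (Finset.card_le_card ?_) h1
        intro p hp
        rw [mem_filter]
        obtain ⟨g1, g2, g3, g4⟩ := hS p hp
        exact ⟨mem_univ _, (mem_filter.1 g1).2, g2, (mem_filter.1 g3).2, g4⟩
      calc 4 * S.card ≤ 4 * (16 * B ^ 5 * K) := Nat.mul_le_mul_left _ h4
        _ = 64 * B ^ 5 * K := by ring)
  refine ⟨f, ?_, ?_⟩
  · intro u hu
    have := hf1 u (by simpa using hu)
    simpa using this
  · intro u hu w hw hne e he he'
    exact hf2 u (by simpa using hu) w (by simpa using hw) hne ⟨e, he, he'⟩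

/-- the map of colours given by a choice of switches -/
noncomputable def sig (H : (Fin 4 → V) → Prop) (f : V × V × V → V) (d x y : V) : V :=
  if h : ∃ u, b.Un H u ∧ (d, x, y) ∈ b.Tr u (f u) then
    (if d = h.choose.1 then f h.choose else h.choose.1) else d

theorem sig_of_mem {H : (Fin 4 → V) → Prop} {f : V × V × V → V}
    (hf2 : ∀ u, b.Un H u → ∀ w, b.Un H w → u ≠ w → ∀ e, e ∈ b.Tr u (f u) → e ∉ b.Tr w (f w))
    {u : V × V × V} (hu : b.Un H u) {d x y : V} (he : (d, x, y) ∈ b.Tr u (f u)) :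
    b.sig H f d x y = if d = u.1 then f u else u.1 := by
  have h : ∃ u, b.Un H u ∧ (d, x, y) ∈ b.Tr u (f u) := ⟨u, hu, he⟩
  have h1 : h.choose = u := by
    by_contra hne
    exact hf2 _ h.choose_spec.1 u hu hne _ h.choose_spec.2 he
  unfold sig
  rw [dif_pos h, h1]

theorem sig_of_notMem {H : (Fin 4 → V) → Prop} {f : V × V × V → V} {d x y : V}
    (h : ¬ ∃ u, b.Un H u ∧ (d, x, y) ∈ b.Tr u (f u)) : b.sig H f d x y = d := by
  unfold sig
  rw [dif_neg h]

/-- the cube obtained by switching -/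
theorem exists_cube (H : (Fin 4 → V) → Prop) (f : V × V × V → V)
    (hf1 : ∀ u, b.Un H u → b.Opt H u (f u))
    (hf2 : ∀ u, b.Un H u → ∀ w, b.Un H w → u ≠ w → ∀ e, e ∈ b.Tr u (f u) → e ∉ b.Tr w (f w)) :
    ∃ L : V → V → V → V, (∀ x y, Function.Injective (L x y)) ∧
      (∀ y z, Function.Injective (fun x => L x y z)) ∧
      (∀ x z, Function.Injective (fun y => L x y z)) ∧
      ∀ x y z, ¬ H ![x, y, z, L x y z] := by
  -- the two colours of a touched cell
  have hcol : ∀ u, b.Un H u → ∀ d x y, (d, x, y) ∈ b.Tr u (f u) →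
      ∃ c, (c, x, y) ∈ b.Tr u (f u) ∧ b.sig H f d x y = c ∧ b.sig H f c x y = d ∧ c ≠ d ∧
        ((c = u.1 ∧ d = f u) ∨ (c = f u ∧ d = u.1)) := by
    intro u hu d x y he
    have hP := (hf1 u hu).1
    have hne := b.Pt_ne _ _ hP
    have he' := he
    rw [mem_Tr] at he'
    obtain ⟨hd, hx, hy⟩ := he'
    simp only at hd hx hy
    rcases hd with hd | hd
    · have hm : (f u, x, y) ∈ b.Tr u (f u) := by
        rw [mem_Tr]
        exact ⟨Or.inr rfl, hx, hy⟩
      refine ⟨f u, hm, ?_, ?_, ?_, Or.inr ⟨rfl, hd⟩⟩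
      · rw [b.sig_of_mem hf2 hu he, if_pos hd]
      · rw [b.sig_of_mem hf2 hu hm, if_neg hne.symm, hd]
      · rw [hd]; exact hne.symm
    · have hm : (u.1, x, y) ∈ b.Tr u (f u) := by
        rw [mem_Tr]
        exact ⟨Or.inl rfl, hx, hy⟩
      refine ⟨u.1, hm, ?_, ?_, ?_, Or.inl ⟨rfl, hd⟩⟩
      · rw [b.sig_of_mem hf2 hu he, if_neg (by rw [hd]; exact hne.symm)]
      · rw [b.sig_of_mem hf2 hu hm, if_pos rfl, hd]
      · rw [hd]; exact hne
  have hinv : ∀ d x y, b.sig H f (b.sig H f d x y) x y = d := by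
    intro d x y
    by_cases h : ∃ u, b.Un H u ∧ (d, x, y) ∈ b.Tr u (f u)
    · obtain ⟨u, hu, he⟩ := h
      obtain ⟨c, _, h1, h2, _⟩ := hcol u hu d x y he
      rw [h1, h2]
    · rw [b.sig_of_notMem h, b.sig_of_notMem h]
  -- blocks are respected
  have hblk : ∀ u, b.Un H u → ∀ c d x x2, ((c = u.1 ∧ d = f u) ∨ (c = f u ∧ d = u.1)) →
      b.R c x = b.R d x2 → b.blk u.1 (f u) x = b.blk u.1 (f u) x2 := by
    intro u hu c d x x2 hcd hR
    have hP := (hf1 u hu).1
    rcases hcd with ⟨rfl, rfl⟩ | ⟨rfl, rfl⟩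
    · exact (b.blk_eq _ _ _ _ (b.blk_R _ _ _ _ hP hR)).symm
    · exact b.blk_eq _ _ _ _ (b.blk_R _ _ _ _ hP hR.symm)
  obtain ⟨L, hL1, hL2, hL3, hL4⟩ := cube_of_sigma b.R b.R_inj b.R_inj' (b.sig H f)
    (by
      intro x y d d' h
      simp only at h
      rw [← hinv d x y, h, hinv])
    (by
      intro d c x x2 y h hR
      by_cases hm : ∃ u, b.Un H u ∧ (d, x, y) ∈ b.Tr u (f u)
      · obtain ⟨u, hu, he⟩ := hm
        obtain ⟨c1, hc1, h1, h2, h3, h4⟩ := hcol u hu d x y he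
        have hcc : c1 = c := h1.symm.trans h
        subst hcc
        have hb := hblk u hu c1 d x x2 h4 hR
        rw [mem_Tr] at he
        obtain ⟨k1, k2, k3⟩ := he
        simp only at k1 k2 k3
        have hm2 : (d, x2, y) ∈ b.Tr u (f u) := by
          rw [mem_Tr]
          refine ⟨k1, ?_, k3⟩
          show x2 ∈ b.blk u.1 (f u) u.2.1
          rw [← b.blk_eq _ _ _ _ k2, hb]
          exact b.mem_blk _ _ _
        obtain ⟨c2, _, g1, _, g3, g4⟩ := hcol u hu d x2 y hm2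
        rw [g1]
        have hne := b.Pt_ne _ _ (hf1 u hu).1
        rcases h4 with ⟨r1, r2⟩ | ⟨r1, r2⟩ <;> rcases g4 with ⟨s1, s2⟩ | ⟨s1, s2⟩
        · rw [r1, s1]
        · exact absurd (s2.symm.trans r2) hne
        · exact absurd (r2.symm.trans s2) hne
        · rw [r1, s1]
      · have hd := b.sig_of_notMem hm
        have hcd : c = d := h.symm.trans hd
        subst hcd
        have := b.R_inj _ hR
        subst this
        exact h)
    (by
      intro d c x y y2 h hR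
      by_cases hm : ∃ u, b.Un H u ∧ (d, x, y) ∈ b.Tr u (f u)
      · obtain ⟨u, hu, he⟩ := hm
        obtain ⟨c1, hc1, h1, h2, h3, h4⟩ := hcol u hu d x y he
        have hcc : c1 = c := h1.symm.trans h
        subst hcc
        have h4' : (d = u.1 ∧ c1 = f u) ∨ (d = f u ∧ c1 = u.1) := by
          rcases h4 with ⟨r1, r2⟩ | ⟨r1, r2⟩
          · exact Or.inr ⟨r2, r1⟩
          · exact Or.inl ⟨r2, r1⟩
        have hb := hblk u hu d c1 y y2 h4' hR
        rw [mem_Tr] at hc1
        obtain ⟨k1, k2, k3⟩ := hc1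
        simp only at k1 k2 k3
        have hm2 : (c1, x, y2) ∈ b.Tr u (f u) := by
          rw [mem_Tr]
          refine ⟨k1, k2, ?_⟩
          show y2 ∈ b.blk u.1 (f u) u.2.2
          rw [← b.blk_eq _ _ _ _ k3, hb]
          exact b.mem_blk _ _ _
        obtain ⟨c2, _, g1, _, g3, g4⟩ := hcol u hu c1 x y2 hm2
        rw [g1]
        have hne := b.Pt_ne _ _ (hf1 u hu).1
        rcases h4 with ⟨r1, r2⟩ | ⟨r1, r2⟩ <;> rcases g4 with ⟨s1, s2⟩ | ⟨s1, s2⟩
        · exact absurd (r1.symm.trans s2) hne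
        · rw [r2, s1]
        · rw [r2, s1]
        · exact absurd (s2.symm.trans r1) hne
      · have hd := b.sig_of_notMem hm
        have hcd : c = d := h.symm.trans hd
        subst hcd
        have := b.R_inj _ hR
        subst this
        exact h)
  refine ⟨L, hL1, hL2, hL3, ?_⟩
  intro x y z hH
  obtain ⟨d, hd, hLd⟩ := hL4 x y z
  have htp : (![x, y, z, L x y z] : Fin 4 → V) = b.tp d (b.sig H f d x y) x y := by
    unfold tp
    rw [hd, hLd]
  rw [htp] at hH
  by_cases hm : ∃ u, b.Un H u ∧ (d, x, y) ∈ b.Tr u (f u)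
  · obtain ⟨u, hu, he⟩ := hm
    obtain ⟨c, hc1, h1, h2, h3, h4⟩ := hcol u hu d x y he
    rw [mem_Tr] at he
    obtain ⟨k1, k2, k3⟩ := he
    rw [mem_Tr] at hc1
    rw [h1] at hH
    refine (hf1 u hu).2.2.2 x k2 y k3 d c k1 hc1.1 ?_ hH
    rintro ⟨e1, e2, _⟩
    exact h3 (e2.trans e1.symm)
  · rw [b.sig_of_notMem hm] at hH
    apply hm
    have hu : b.Un H (d, b.rep d x, b.rep d y) := ⟨x, y, hH, rfl, rfl⟩
    refine ⟨_, hu, ?_⟩
    rw [mem_Tr]
    have hP := (hf1 _ hu).1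
    refine ⟨Or.inl rfl, ?_, ?_⟩
    · exact b.clu_blk hP (Or.inl rfl) (b.rep_rep d x)
    · exact b.clu_blk hP (Or.inl rfl) (b.rep_rep d y)

include b in
/-- **The abstract theorem.** -/
theorem main {V' : Type*} [Fintype V'] [DecidableEq V'] (F : (Fin 4 → V') → Prop) (k K : ℕ)
    (hF : ∀ (i : Fin 4) (v : Fin 4 → V'), {s | F (Function.update v i s)}.ncard ≤ k)
    (hcard : Fintype.card V = Fintype.card V') (hK : 1 ≤ K)
    (hn : 150 * B ^ 5 * K ≤ Fintype.card V)
    (hsmall : 8 * Fintype.card V ^ 3 * (8 * B ^ 3 * k) ^ K < K.factorial) :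
    ∃ L : V' → V' → V' → V', (∀ x y, Function.Injective (L x y)) ∧
      (∀ y z, Function.Injective (fun x => L x y z)) ∧
      (∀ x z, Function.Injective (fun y => L x y z)) ∧
      ∀ x y z, ¬ F ![x, y, z, L x y z] := by
  obtain ⟨π, h12, h3a, h3b⟩ := b.exists_pi F k K hF hcard hsmall
  obtain ⟨f, hf1, hf2⟩ := b.exists_choice (fun t => F (fun l => π l (t l))) K hK h12 h3a h3b hn
  obtain ⟨L, hL1, hL2, hL3, hL4⟩ := b.exists_cube (fun t => F (fun l => π l (t l))) f hf1 hf2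
  refine ⟨fun x y z => π 3 (L ((π 0).symm x) ((π 1).symm y) ((π 2).symm z)), ?_, ?_, ?_, ?_⟩
  · intro x y z z' h
    exact (π 2).symm.injective (hL1 _ _ ((π 3).injective h))
  · intro y z x x' h
    exact (π 0).symm.injective (hL2 _ _ ((π 3).injective h))
  · intro x z y y' h
    exact (π 1).symm.injective (hL3 _ _ ((π 3).injective h))
  · intro x y z h
    apply hL4 ((π 0).symm x) ((π 1).symm y) ((π 2).symm z)
    have : (fun l => π l ((![(π 0).symm x, (π 1).symm y, (π 2).symm z,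
        L ((π 0).symm x) ((π 1).symm y) ((π 2).symm z)] : Fin 4 → V) l)) =
        ![x, y, z, π 3 (L ((π 0).symm x) ((π 1).symm y) ((π 2).symm z))] := by
      funext l
      match l with
      | 0 => simp
      | 1 => simp
      | 2 => simp
      | 3 => simp
    show F (fun l => π l ((![(π 0).symm x, (π 1).symm y, (π 2).symm z,
        L ((π 0).symm x) ((π 1).symm y) ((π 2).symm z)] : Fin 4 → V) l))
    rw [this]
    exact h

end Base

end Pool.Agent.Lib.MP_7580b0_co
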