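import Pool.Agent.Lib.MP_7580b0_co.Good

/-!
# Assembling the cube
-/

namespace Pool.Agent.Lib.MP_7580b0_co

open Finset

namespace Base

open Classical

variable {V : Type*} [Fintype V] [DecidableEq V] {B : ℕ} (b : Base V B)

/-- the cells touched by the switch of the unit `u` with the partner colour `c'` -/
def Tr (u : V × V × V) (c' : V) : Finset (V × V × V) :=
  ({u.1, c'} : Finset V) ×ˢ (b.blk u.1 c' u.2.1 ×ˢ b.blk u.1 c' u.2.2)

theorem mem_Tr {u : V × V × V} {c' : V} {e : V × V × V} :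
    e ∈ b.Tr u c' ↔ (e.1 = u.1 ∨ e.1 = c') ∧ e.2.1 ∈ b.blk u.1 c' u.2.1 ∧
      e.2.2 ∈ b.blk u.1 c' u.2.2 := by
  simp [Tr]

/-- a usable option for the unit `u` -/
def Opt (H : (Fin 4 → V) → Prop) (u : V × V × V) (c' : V) : Prop :=
  b.Pt u.1 c' ∧ b.ok u.1 c' u.2.1 ∧ b.ok u.1 c' u.2.2 ∧
    ∀ x' ∈ b.blk u.1 c' u.2.1, ∀ y' ∈ b.blk u.1 c' u.2.2, ∀ d1 d2,
      (d1 = u.1 ∨ d1 = c') → (d2 = u.1 ∨ d2 = c') →
      ¬ (d1 = u.1 ∧ d2 = u.1 ∧ b.rep u.1 x' = b.rep u.1 u.2.1 ∧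
        b.rep u.1 y' = b.rep u.1 u.2.2) → ¬ H (b.tp d1 d2 x' y')

/-- the units containing a hit -/
def Un (H : (Fin 4 → V) → Prop) (u : V × V × V) : Prop :=
  ∃ x y, H (b.tp u.1 u.1 x y) ∧ b.rep u.1 x = u.2.1 ∧ b.rep u.1 y = u.2.2

theorem bad_ok (c x : V) :
    {c' | b.Pt c c' ∧ ¬ b.ok c c' x}.ncard ≤ B := by
  by_cases h : x ∈ b.C c
  · have : {c' | b.Pt c c' ∧ ¬ b.ok c c' x} = ∅ := by
      rw [Set.eq_empty_iff_forall_notMem]
      rintro c' ⟨_, h2⟩
      exact h2 (Or.inl h)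
    rw [this]
    simp
  · refine le_trans (Set.ncard_le_ncard ?_ (Set.toFinite _)) (b.K3 c x h)
    rintro c' ⟨h1, h2⟩
    refine ⟨h1, ?_⟩
    have h3 : b.z0 ∈ b.blk c c' x := by
      by_contra h4
      exact h2 (Or.inr h4)
    exact b.blk_symm h3

theorem opt_card (H : (Fin 4 → V) → Prop) (K : ℕ)
    (h12 : ∀ c x y i, {c' | (b.Pt c c' ∧ b.ok c c' x ∧ b.ok c c' y) ∧
        ∃ t ∈ b.F12 c x y i c', H t}.ncard < 2 * B * K)
    (u : V × V × V) :
    Fintype.card V ≤ 2 * (univ.filter (fun c' => b.Opt H u c')).card + 4 * B + 16 * B * K := by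
  have h6 := b.K6 u.1
  have hsub : {c' | b.Pt u.1 c'} ⊆ ({c' | b.Opt H u c'} ∪ {c' | b.Pt u.1 c' ∧ ¬ b.ok u.1 c' u.2.1} ∪
      {c' | b.Pt u.1 c' ∧ ¬ b.ok u.1 c' u.2.2}) ∪
      ⋃ i ∈ (univ : Finset (Fin 4)), {c' | (b.Pt u.1 c' ∧ b.ok u.1 c' u.2.1 ∧ b.ok u.1 c' u.2.2) ∧
        ∃ t ∈ b.F12 u.1 u.2.1 u.2.2 i c', H t} := by
    intro c' hc'
    have hP : b.Pt u.1 c' := hc'
    by_cases h1 : b.ok u.1 c' u.2.1
    swap
    · exact Or.inl (Or.inl (Or.inr ⟨hP, h1⟩))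
    by_cases h2 : b.ok u.1 c' u.2.2
    swap
    · exact Or.inl (Or.inr ⟨hP, h2⟩)
    by_cases h3 : ∃ i, ∃ t ∈ b.F12 u.1 u.2.1 u.2.2 i c', H t
    · obtain ⟨i, hi⟩ := h3
      right
      simp only [Set.mem_iUnion]
      exact ⟨i, mem_univ i, ⟨hP, h1, h2⟩, hi⟩
    · refine Or.inl (Or.inl (Or.inl ⟨hP, h1, h2, ?_⟩))
      intro x' hx' y' hy' d1 d2 hd1 hd2 hn hH
      apply h3
      have hmem : ∀ i, b.cnd u.1 u.2.1 u.2.2 c' i ((x', y'), (d1, d2)) →
          b.tp d1 d2 x' y' ∈ b.F12 u.1 u.2.1 u.2.2 i c' := by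
        intro i hi
        simp only [F12, mem_image, mem_filter, mem_product]
        refine ⟨((x', y'), (d1, d2)), ⟨⟨⟨hx', hy'⟩, ?_, ?_⟩, hi⟩, rfl⟩
        · simpa using hd1
        · simpa using hd2
      by_cases e1 : b.rep u.1 x' = b.rep u.1 u.2.1
      swap
      · exact ⟨0, _, hmem 0 e1, hH⟩
      by_cases e2 : b.rep u.1 y' = b.rep u.1 u.2.2
      swap
      · exact ⟨1, _, hmem 1 e2, hH⟩
      by_cases e3 : d1 = u.1
      swap
      · exact ⟨2, _, hmem 2 ⟨hd1.resolve_left e3, e2⟩, hH⟩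
      by_cases e4 : d2 = u.1
      swap
      · exact ⟨3, _, hmem 3 ⟨hd2.resolve_left e4, e1⟩, hH⟩
      exact absurd ⟨e3, e4, e1, e2⟩ hn
  have h7 : {c' | b.Pt u.1 c'}.ncard ≤ (univ.filter (fun c' => b.Opt H u c')).card + B + B +
      4 * (2 * B * K) := by
    refine (Set.ncard_le_ncard hsub (Set.toFinite _)).trans ?_
    refine (Set.ncard_union_le _ _).trans ?_
    apply Nat.add_le_add
    · refine (Set.ncard_union_le _ _).trans ?_
      apply Nat.add_le_add _ (b.bad_ok u.1 u.2.2)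
      refine (Set.ncard_union_le _ _).trans ?_
      apply Nat.add_le_add _ (b.bad_ok u.1 u.2.1)
      rw [Set.ncard_eq_toFinset_card']
      apply Finset.card_le_card
      intro c' hc'
      simpa using hc'
    · refine (Finset.set_ncard_biUnion_le _ _).trans ?_
      calc _ ≤ ∑ i ∈ (univ : Finset (Fin 4)), (2 * B * K) :=
            Finset.sum_le_sum (fun i _ => (h12 u.1 u.2.1 u.2.2 i).le)
        _ = 4 * (2 * B * K) := by simp
  calc Fintype.card V ≤ 2 * {c' | b.Pt u.1 c'}.ncard := h6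
    _ ≤ 2 * ((univ.filter (fun c' => b.Opt H u c')).card + B + B + 4 * (2 * B * K)) :=
        Nat.mul_le_mul_left _ h7
    _ = _ := by ring

theorem conflict_card (H : (Fin 4 → V) → Prop) (K : ℕ)
    (h3a : ∀ c x y i, {c' | b.Pt c c' ∧ ∃ t ∈ b.F3a c x y i c', H t}.ncard < 2 * B * K)
    (h3b : ∀ c x y i, {c0 | b.Pt c0 c ∧ ∃ t ∈ b.F3b c x y i c0, H t}.ncard < 2 * B * K)
    (u : V × V × V) (hu : b.Un H u) (c' : V) (hc' : b.Opt H u c') :
    (univ.filter (fun p : (V × V × V) × V => b.Un H p.1 ∧ p.1 ≠ u ∧ b.Opt H p.1 p.2 ∧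
      ∃ e ∈ b.Tr u c', e ∈ b.Tr p.1 p.2)).card ≤ 16 * B ^ 5 * K := by
  let A : V × V × V → Finset ((V × V × V) × V) := fun e =>
    (univ.filter (fun c'' => ∃ i, b.Pt e.1 c'' ∧ ∃ t ∈ b.F3a e.1 e.2.1 e.2.2 i c'', H t)).biUnion
      (fun c'' => (b.blk e.1 c'' e.2.1 ×ˢ b.blk e.1 c'' e.2.2).image
        (fun q => ((e.1, q.1, q.2), c'')))
  let A' : V × V × V → Finset ((V × V × V) × V) := fun e =>
    (univ.filter (fun c0 => ∃ i, b.Pt c0 e.1 ∧ ∃ t ∈ b.F3b e.1 e.2.1 e.2.2 i c0, H t)).biUnion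
      (fun c0 => (b.blk c0 e.1 e.2.1 ×ˢ b.blk c0 e.1 e.2.2).image
        (fun q => ((c0, q.1, q.2), e.1)))
  have hA : ∀ e, (A e).card ≤ 4 * B ^ 3 * K := by
    intro e
    have h1 : (univ.filter (fun c'' => ∃ i, b.Pt e.1 c'' ∧
        ∃ t ∈ b.F3a e.1 e.2.1 e.2.2 i c'', H t)).card ≤ 2 * (2 * B * K) := by
      have h2 : (univ.filter (fun c'' => ∃ i, b.Pt e.1 c'' ∧
          ∃ t ∈ b.F3a e.1 e.2.1 e.2.2 i c'', H t)) ⊆ (univ : Finset (Fin 2)).biUnion (fun i =>
            (Set.toFinset {c'' | b.Pt e.1 c'' ∧ ∃ t ∈ b.F3a e.1 e.2.1 e.2.2 i c'', H t})) := by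
        intro c'' hc''
        simp only [mem_filter, mem_univ, true_and] at hc''
        obtain ⟨i, hi⟩ := hc''
        simp only [mem_biUnion, mem_univ, true_and, Set.mem_toFinset]
        exact ⟨i, hi⟩
      refine (Finset.card_le_card h2).trans (Finset.card_biUnion_le.trans ?_)
      calc _ ≤ ∑ i ∈ (univ : Finset (Fin 2)), (2 * B * K) := by
            apply Finset.sum_le_sum
            intro i _
            rw [← Set.ncard_eq_toFinset_card']
            exact (h3a _ _ _ i).le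
        _ = _ := by simp
    refine Finset.card_biUnion_le.trans ?_
    calc _ ≤ ∑ c'' ∈ univ.filter (fun c'' => ∃ i, b.Pt e.1 c'' ∧
          ∃ t ∈ b.F3a e.1 e.2.1 e.2.2 i c'', H t), B * B := by
          apply Finset.sum_le_sum
          intro c'' hc''
          simp only [mem_filter, mem_univ, true_and] at hc''
          obtain ⟨i, hP, _⟩ := hc''
          refine Finset.card_image_le.trans ?_
          rw [Finset.card_product]
          exact Nat.mul_le_mul (b.blk_card _ _ _ hP) (b.blk_card _ _ _ hP)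
      _ ≤ (2 * (2 * B * K)) * (B * B) := by
          rw [Finset.sum_const, smul_eq_mul]
          exact Nat.mul_le_mul_right _ h1
      _ = 4 * B ^ 3 * K := by ring
  have hA' : ∀ e, (A' e).card ≤ 4 * B ^ 3 * K := by
    intro e
    have h1 : (univ.filter (fun c0 => ∃ i, b.Pt c0 e.1 ∧
        ∃ t ∈ b.F3b e.1 e.2.1 e.2.2 i c0, H t)).card ≤ 2 * (2 * B * K) := by
      have h2 : (univ.filter (fun c0 => ∃ i, b.Pt c0 e.1 ∧
          ∃ t ∈ b.F3b e.1 e.2.1 e.2.2 i c0, H t)) ⊆ (univ : Finset (Fin 2)).biUnion (fun i =>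
            (Set.toFinset {c0 | b.Pt c0 e.1 ∧ ∃ t ∈ b.F3b e.1 e.2.1 e.2.2 i c0, H t})) := by
        intro c'' hc''
        simp only [mem_filter, mem_univ, true_and] at hc''
        obtain ⟨i, hi⟩ := hc''
        simp only [mem_biUnion, mem_univ, true_and, Set.mem_toFinset]
        exact ⟨i, hi⟩
      refine (Finset.card_le_card h2).trans (Finset.card_biUnion_le.trans ?_)
      calc _ ≤ ∑ i ∈ (univ : Finset (Fin 2)), (2 * B * K) := by
            apply Finset.sum_le_sum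
            intro i _
            rw [← Set.ncard_eq_toFinset_card']
            exact (h3b _ _ _ i).le
        _ = _ := by simp
    refine Finset.card_biUnion_le.trans ?_
    calc _ ≤ ∑ c0 ∈ univ.filter (fun c0 => ∃ i, b.Pt c0 e.1 ∧
          ∃ t ∈ b.F3b e.1 e.2.1 e.2.2 i c0, H t), B * B := by
          apply Finset.sum_le_sum
          intro c'' hc''
          simp only [mem_filter, mem_univ, true_and] at hc''
          obtain ⟨i, hP, _⟩ := hc''
          refine Finset.card_image_le.trans ?_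
          rw [Finset.card_product]
          exact Nat.mul_le_mul (b.blk_card _ _ _ hP) (b.blk_card _ _ _ hP)
      _ ≤ (2 * (2 * B * K)) * (B * B) := by
          rw [Finset.sum_const, smul_eq_mul]
          exact Nat.mul_le_mul_right _ h1
      _ = 4 * B ^ 3 * K := by ring
  have hTr : (b.Tr u c').card ≤ 2 * (B * B) := by
    unfold Tr
    rw [Finset.card_product, Finset.card_product]
    have h1 := b.blk_card u.1 c' u.2.1 hc'.1
    have h2 := b.blk_card u.1 c' u.2.2 hc'.1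
    have h3 : ({u.1, c'} : Finset V).card ≤ 2 := Finset.card_le_two
    gcongr
  have hsub : (univ.filter (fun p : (V × V × V) × V => b.Un H p.1 ∧ p.1 ≠ u ∧ b.Opt H p.1 p.2 ∧
      ∃ e ∈ b.Tr u c', e ∈ b.Tr p.1 p.2)) ⊆ (b.Tr u c').biUnion (fun e => A e ∪ A' e) := by
    rintro ⟨⟨c0, x0, y0⟩, c''⟩ hp
    simp only [mem_filter, mem_univ, true_and] at hp
    obtain ⟨hU, hne, ⟨hP, hokx, hoky, hno⟩, ⟨d, x, y⟩, he, he'⟩ := hp
    obtain ⟨x1, y1, hH, hx1, hy1⟩ := hU
    simp only at hH hx1 hy1 hP hokx hoky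
    rw [mem_biUnion]
    refine ⟨(d, x, y), he, ?_⟩
    rw [mem_Tr] at he'
    obtain ⟨hd, hx, hy⟩ := he'
    simp only at hd hx hy
    have hx2 : x0 ∈ b.blk c0 c'' x := b.blk_symm hx
    have hy2 : y0 ∈ b.blk c0 c'' y := b.blk_symm hy
    have hrx : b.rep c0 x0 = b.rep c0 x1 := by rw [← hx1, b.rep_rep]
    have hry : b.rep c0 y0 = b.rep c0 y1 := by rw [← hy1, b.rep_rep]
    have hx3 : x1 ∈ b.blk c0 c'' x := by
      have := b.clu_blk hP (Or.inl rfl) hrx
      rwa [← b.blk_eq _ _ _ _ hx] at this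
    have hy3 : y1 ∈ b.blk c0 c'' y := by
      have := b.clu_blk hP (Or.inl rfl) hry
      rwa [← b.blk_eq _ _ _ _ hy] at this
    have hokx1 : b.ok c0 c'' x1 := b.ok_of_rep hx1 hokx
    have hoky1 : b.ok c0 c'' y1 := b.ok_of_rep hy1 hoky
    rw [mem_union]
    rcases hd with hd | hd
    · -- the same first colour
      subst hd
      left
      -- the units are different
      have hdiff : b.rep d x1 ≠ b.rep d x ∨ b.rep d y1 ≠ b.rep d y := by
        by_contra hcon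
        push Not at hcon
        obtain ⟨g1, g2⟩ := hcon
        rw [mem_Tr] at he
        obtain ⟨k1, k2, k3⟩ := he
        simp only at k1 k2 k3
        have m1 : x1 ∈ b.blk u.1 c' u.2.1 := by
          rw [← b.blk_eq _ _ _ _ k2]
          exact b.clu_blk hc'.1 k1 g1.symm
        have m2 : y1 ∈ b.blk u.1 c' u.2.2 := by
          rw [← b.blk_eq _ _ _ _ k3]
          exact b.clu_blk hc'.1 k1 g2.symm
        by_contra _
        by_cases hcase : d = u.1 ∧ d = u.1 ∧ b.rep u.1 x1 = b.rep u.1 u.2.1 ∧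
            b.rep u.1 y1 = b.rep u.1 u.2.2
        · obtain ⟨q1, _, q3, q4⟩ := hcase
          obtain ⟨x2, y2, _, w1, w2⟩ := hu
          apply hne
          have z1 : b.rep u.1 u.2.1 = u.2.1 := by rw [← w1, b.rep_rep]
          have z2 : b.rep u.1 u.2.2 = u.2.2 := by rw [← w2, b.rep_rep]
          have z3 : x0 = u.2.1 := by rw [← hx1, q1, q3, z1]
          have z4 : y0 = u.2.2 := by rw [← hy1, q1, q4, z2]
          rw [q1, z3, z4]
        · exact hc'.2.2.2 x1 m1 y1 m2 d d k1 k1 hcase hH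
      simp only [A, mem_biUnion, mem_filter, mem_univ, true_and, mem_image, mem_product]
      refine ⟨c'', ?_, (x0, y0), ⟨hx2, hy2⟩, rfl⟩
      have hmem : ∀ i, b.cnda d x y i (x1, y1) → b.tp d d x1 y1 ∈ b.F3a d x y i c'' := by
        intro i hi
        simp only [F3a, mem_image, mem_filter, mem_product]
        exact ⟨(x1, y1), ⟨⟨hx3, hy3⟩, hokx1, hoky1, hi⟩, rfl⟩
      rcases hdiff with h | h
      · exact ⟨0, hP, _, hmem 0 h, hH⟩
      · exact ⟨1, hP, _, hmem 1 h, hH⟩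
    · subst hd
      right
      simp only [A', mem_biUnion, mem_filter, mem_univ, true_and, mem_image, mem_product]
      refine ⟨c0, ?_, (x0, y0), ⟨hx2, hy2⟩, rfl⟩
      have hmem : ∀ i, b.cndb x i (x1, y1) → b.tp c0 c0 x1 y1 ∈ b.F3b d x y i c0 := by
        intro i hi
        simp only [F3b, mem_image, mem_filter, mem_product]
        exact ⟨(x1, y1), ⟨⟨hx3, hy3⟩, hokx1, hoky1, hi⟩, rfl⟩
      by_cases hz : x1 ∈ b.Z ∨ x1 = x
      · exact ⟨1, hP, _, hmem 1 hz, hH⟩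
      · push Not at hz
        exact ⟨0, hP, _, hmem 0 hz, hH⟩
  calc _ ≤ ((b.Tr u c').biUnion (fun e => A e ∪ A' e)).card := Finset.card_le_card hsub
    _ ≤ ∑ e ∈ b.Tr u c', (A e ∪ A' e).card := Finset.card_biUnion_le
    _ ≤ ∑ e ∈ b.Tr u c', (4 * B ^ 3 * K + 4 * B ^ 3 * K) := by
        apply Finset.sum_le_sum
        intro e _
        refine (Finset.card_union_le _ _).trans ?_
        exact Nat.add_le_add (hA e) (hA' e)
    _ ≤ 2 * (B * B) * (4 * B ^ 3 * K + 4 * B ^ 3 * K) := by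
        rw [Finset.sum_const, smul_eq_mul]
        exact Nat.mul_le_mul_right _ hTr
    _ = 16 * B ^ 5 * K := by ring

end Base

end Pool.Agent.Lib.MP_7580b0_co
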