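import Pool.Agent.Lib.MP_7580b0_co.Labels

/-!
# The concrete switchable Latin square
-/

namespace Pool.Agent.Lib.MP_7580b0_co

open Finset

namespace Conc

set_option linter.unusedSectionVars false

variable {m r : ℕ} [NeZero m] [NeZero r]

theorem z3f : ∀ k : ZMod 3, k + 2 ≠ k ∧ k + 1 ≠ k := by decide

/-- the exceptional cluster of a colour -/
def CC (m r : ℕ) (c : VV m r) : Set (VV m r) := {x | x.isRight ∨ (RR m r c x).isRight}

theorem mem_CC_l {a1 a : ZMod m} {k1 k : ZMod 3} :
    (Sum.inl (a, k) : VV m r) ∈ CC m r (.inl (a1, k1)) ↔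
      k = k1 ∧ ∃ i : ZMod r, tau m i = a1 - a := by
  unfold CC
  simp only [Set.mem_ofPred_eq, Sum.isRight_inl, Bool.false_eq_true, false_or]
  rcases RR_cases (r := r) a1 a k1 k with ⟨hk1, i, hi, e1⟩ | ⟨hk1, hi, e1⟩ | ⟨hk1, e1⟩ <;> rw [e1]
  · simp only [Sum.isRight_inr, true_iff]
    exact ⟨hk1, i, hi⟩
  · simp only [Sum.isRight_inl, Bool.false_eq_true, false_iff]
    rintro ⟨_, i, h⟩
    exact hi i h
  · simp only [Sum.isRight_inl, Bool.false_eq_true, false_iff]
    rintro ⟨h, _⟩
    exact hk1 h

theorem not_mem_CC_r {a : ZMod m} {k : ZMod 3} {i : ZMod r} :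
    (Sum.inl (a, k) : VV m r) ∉ CC m r (.inr i) := by
  unfold CC
  simp [RR_il]

theorem inr_mem_CC (c : VV m r) (i : ZMod r) : (Sum.inr i : VV m r) ∈ CC m r c := by
  unfold CC
  simp

theorem lab_of_CC (c c' x : VV m r) (hP : PP m r c c') (hx : x ∈ CC m r c) :
    lab m r c c' x = none := by
  rcases x with ⟨a, k⟩ | i
  swap
  · exact lab_inr _ _ _
  rcases c' with ⟨a2, k2⟩ | c'
  swap
  · rcases c with c | c <;> exact absurd hP id
  rcases c with ⟨a1, k1⟩ | i0
  · rw [mem_CC_l] at hx
    obtain ⟨h1, i, hi⟩ := hx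
    rw [lab_ll_none]
    refine ⟨i, ?_⟩
    rw [ell, if_pos h1, hi]
    ring
  · exact absurd hx not_mem_CC_r

theorem lab_of_CC' (c c' x : VV m r) (hP : PP m r c c') (hx : x ∈ CC m r c') :
    lab m r c c' x = none := by
  rcases x with ⟨a, k⟩ | i
  swap
  · exact lab_inr _ _ _
  rcases c' with ⟨a2, k2⟩ | c'
  swap
  · rcases c with c | c <;> exact absurd hP id
  rw [mem_CC_l] at hx
  obtain ⟨h1, i, hi⟩ := hx
  rcases c with ⟨a1, k1⟩ | i0
  · have hk : k1 ≠ k2 := hP
    rw [lab_ll_none]
    refine ⟨i, ?_⟩
    rw [ell, if_neg (by rw [h1]; exact hk.symm), if_pos h1, hi]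
    ring
  · rcases lab_il (r := r) (a2 := a2) (b := a) (k2 := k2) (l := k) (i := i0) with
          ⟨q1, q2, q3⟩ | ⟨q1, q2, q3⟩ | ⟨q1, q3⟩
    · exact q3
    · exact absurd (Or.inl ⟨i, hi⟩) q2
    · exact absurd h1 q1

theorem K1 (hm : Odd m) (c x z : VV m r) (hxz : x ≠ z) :
    {c' | PP m r c c' ∧ lab m r c c' x ≠ none ∧ lab m r c c' z = lab m r c c' x}.ncard ≤ 3 := by
  have key : Set.InjOn (fun v : VV m r => (Sum.elim (fun p => p.2) (fun _ => 0) v : ZMod 3))
      {c' | PP m r c c' ∧ lab m r c c' x ≠ none ∧ lab m r c c' z = lab m r c c' x} := by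
    rintro c' ⟨h1, h2, h3⟩ c'' ⟨g1, g2, g3⟩ heq
    rcases c' with ⟨a2, k2⟩ | c'
    swap
    · rcases c with c | c <;> exact absurd h1 id
    rcases c'' with ⟨a3, k3⟩ | c''
    swap
    · rcases c with c | c <;> exact absurd g1 id
    have hk23 : k2 = k3 := heq
    subst hk23
    rcases x with ⟨a, k⟩ | i
    swap
    · exact absurd (lab_inr _ _ _) h2
    rcases z with ⟨b, l⟩ | i
    swap
    · rw [lab_inr] at h3
      exact absurd h3.symm h2
    have hne : ¬ (a = b ∧ k = l) := by
      rintro ⟨rfl, rfl⟩
      exact hxz rfl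
    rcases c with ⟨a1, k1⟩ | i0
    · have e1 := ell_of_lab h2 h3
      have e2 := ell_of_lab g2 g3
      have := ell_unique hm (show k1 ≠ k2 from h1) hne e1 e2
      rw [this]
    · -- the colour at infinity
      have main : ∀ a4 : ZMod m, lab m r (.inr i0) (.inl (a4, k2)) (.inl (a, k)) ≠ none →
          lab m r (.inr i0) (.inl (a4, k2)) (.inl (b, l)) =
            lab m r (.inr i0) (.inl (a4, k2)) (.inl (a, k)) →
          (k = k2 ∧ 2 * a4 = a + b + 2 * tau m i0) ∨ (k ≠ k2 ∧ a4 = -a - b - 2 * tau m i0) := by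
        intro a4 m1 m2
        rcases lab_il (r := r) (a2 := a4) (b := a) (k2 := k2) (l := k) (i := i0) with
          ⟨q1, q2, q3⟩ | ⟨q1, q2, q3⟩ | ⟨q1, q3⟩
        · exact absurd q3 m1
        · left
          refine ⟨q1, ?_⟩
          rw [q3] at m2
          rcases lab_il (r := r) (a2 := a4) (b := b) (k2 := k2) (l := l) (i := i0) with
            ⟨p1, p2, p3⟩ | ⟨p1, p2, p3⟩ | ⟨p1, p3⟩ <;> rw [p3] at m2
          · exact absurd m2 (by simp)
          · rw [Option.some.injEq, Sum.inr.injEq, Sym2.eq_iff] at m2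
            rcases m2 with ⟨n1, n2⟩ | ⟨n1, n2⟩
            · rw [Prod.mk.injEq] at n1
              exact absurd ⟨n1.1.symm, n1.2.symm⟩ hne
            · rw [Prod.mk.injEq] at n1
              linear_combination -n1.1
          · rw [Option.some.injEq, Sum.inr.injEq, Sym2.eq_iff] at m2
            rcases m2 with ⟨n1, n2⟩ | ⟨n1, n2⟩
            · rw [Prod.mk.injEq] at n1
              exact absurd ⟨n1.1.symm, n1.2.symm⟩ hne
            · rw [Prod.mk.injEq] at n1
              exact absurd (n1.2.trans q1) p1
        · right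
          refine ⟨q1, ?_⟩
          rw [q3] at m2
          rcases lab_il (r := r) (a2 := a4) (b := b) (k2 := k2) (l := l) (i := i0) with
            ⟨p1, p2, p3⟩ | ⟨p1, p2, p3⟩ | ⟨p1, p3⟩ <;> rw [p3] at m2
          · exact absurd m2 (by simp)
          · rw [Option.some.injEq, Sum.inr.injEq, Sym2.eq_iff] at m2
            rcases m2 with ⟨n1, n2⟩ | ⟨n1, n2⟩
            · rw [Prod.mk.injEq] at n1
              exact absurd ⟨n1.1.symm, n1.2.symm⟩ hne
            · rw [Prod.mk.injEq] at n2
              exact absurd (n2.2.symm.trans p1) q1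
          · rw [Option.some.injEq, Sum.inr.injEq, Sym2.eq_iff] at m2
            rcases m2 with ⟨n1, n2⟩ | ⟨n1, n2⟩
            · rw [Prod.mk.injEq] at n1
              exact absurd ⟨n1.1.symm, n1.2.symm⟩ hne
            · rw [Prod.mk.injEq] at n1
              linear_combination n1.1
      rcases main a2 h2 h3 with ⟨m1, m2⟩ | ⟨m1, m2⟩ <;>
      rcases main a3 g2 g3 with ⟨n1, n2⟩ | ⟨n1, n2⟩
      · rw [two_cancel hm (m2.trans n2.symm)]
      · exact absurd m1 n1
      · exact absurd n1 m1
      · rw [m2, n2]
  have := ncard_le_of_injOn _ _ key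
  simpa using this

theorem K2 (hm : Odd m) (c' x z : VV m r) (hxz : x ≠ z) :
    {c | PP m r c c' ∧ lab m r c c' x ≠ none ∧ lab m r c c' z = lab m r c c' x}.ncard ≤
      3 + r := by
  have key : Set.InjOn (fun v : VV m r => (Sum.map (fun p => p.2) id v : ZMod 3 ⊕ ZMod r))
      {c | PP m r c c' ∧ lab m r c c' x ≠ none ∧ lab m r c c' z = lab m r c c' x} := by
    rintro c ⟨h1, h2, h3⟩ d ⟨g1, g2, g3⟩ heq
    rcases c' with ⟨a2, k2⟩ | c'
    swap
    · rcases c with c | c <;> exact absurd h1 id
    rcases x with ⟨a, k⟩ | i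
    swap
    · exact absurd (lab_inr _ _ _) h2
    rcases z with ⟨b, l⟩ | i
    swap
    · rw [lab_inr] at h3
      exact absurd h3.symm h2
    have hne : ¬ (a = b ∧ k = l) := by
      rintro ⟨rfl, rfl⟩
      exact hxz rfl
    rcases c with ⟨a1, k1⟩ | i <;> rcases d with ⟨a3, k3⟩ | j
    · simp only [Sum.map_inl, Sum.inl.injEq] at heq
      subst heq
      have hk : k1 ≠ k2 := h1
      have e1 := ell_of_lab h2 h3
      have e2 := ell_of_lab g2 g3
      rw [ell_symm hk, ell_symm hk] at e1 e2
      rw [ell_unique hm hk.symm hne e1 e2]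
    · simp at heq
    · simp at heq
    · simp only [Sum.map_inr, id, Sum.inr.injEq] at heq
      rw [heq]
  have := ncard_le_of_injOn _ _ key
  simpa [ZMod.card] using this

theorem K3 (c z : VV m r) (hz : z ∉ CC m r c) :
    {c' | PP m r c c' ∧ lab m r c c' z = none}.ncard ≤ 2 * r := by
  rcases z with ⟨b, l⟩ | i
  swap
  · exact absurd (inr_mem_CC c i) hz
  rcases c with ⟨a1, k1⟩ | i0
  · have h := ncard_le_of_range {c' | PP m r (.inl (a1, k1)) c' ∧
        lab m r (.inl (a1, k1)) c' (.inl (b, l)) = none}
      (Sum.elim (fun i : ZMod r => (.inl (b + tau m i, l) : VV m r))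
        (fun i : ZMod r => .inl (-b - a1 - tau m i, -k1 - l)))
      (by
        rintro c' ⟨h1, h2⟩
        rcases c' with ⟨a2, k2⟩ | c'
        swap
        · exact absurd h1 id
        have hk : k1 ≠ k2 := h1
        rw [lab_ll_none] at h2
        obtain ⟨i, hi⟩ := h2
        by_cases hl1 : l = k1
        · exfalso
          apply hz
          rw [mem_CC_l]
          refine ⟨hl1, i, ?_⟩
          rw [ell, if_pos hl1] at hi
          rw [hi]; ring
        · by_cases hl2 : l = k2
          · refine ⟨Sum.inl i, ?_⟩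
            rw [ell, if_neg hl1, if_pos hl2] at hi
            simp only [Sum.elim_inl, Sum.inl.injEq, Prod.mk.injEq]
            exact ⟨by rw [hi]; ring, hl2⟩
          · refine ⟨Sum.inr i, ?_⟩
            rw [ell, if_neg hl1, if_neg hl2] at hi
            simp only [Sum.elim_inr, Sum.inl.injEq, Prod.mk.injEq]
            exact ⟨by rw [hi]; ring, (z3d k1 k2 l hk hl1 hl2).symm⟩)
    refine h.trans ?_
    simp only [Fintype.card_sum, ZMod.card]
    omega
  · have h := ncard_le_of_range {c' | PP m r (.inr i0) c' ∧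
        lab m r (.inr i0) c' (.inl (b, l)) = none}
      (Sum.elim (fun i : ZMod r => (.inl (b + tau m i, l) : VV m r))
        (fun i : ZMod r => .inl (b + 2 * tau m i0 - tau m i, l)))
      (by
        rintro c' ⟨h1, h2⟩
        rcases c' with ⟨a2, k2⟩ | c'
        swap
        · exact absurd h1 id
        rcases lab_il (r := r) (a2 := a2) (b := b) (k2 := k2) (l := l) (i := i0) with
            ⟨p1, p2, p3⟩ | ⟨p1, p2, p3⟩ | ⟨p1, p3⟩
        · rcases p2 with ⟨j, hj⟩ | ⟨j, hj⟩
          · refine ⟨Sum.inl j, ?_⟩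
            simp only [Sum.elim_inl, Sum.inl.injEq, Prod.mk.injEq]
            exact ⟨by rw [hj]; ring, p1⟩
          · refine ⟨Sum.inr j, ?_⟩
            simp only [Sum.elim_inr, Sum.inl.injEq, Prod.mk.injEq]
            exact ⟨by rw [hj]; ring, p1⟩
        · rw [p3] at h2
          exact absurd h2 (by simp)
        · rw [p3] at h2
          exact absurd h2 (by simp))
    refine h.trans ?_
    simp only [Fintype.card_sum, ZMod.card]
    omega

theorem K4 (x : VV m r) (hx : ¬ x.isRight) : {c | x ∈ CC m r c}.ncard ≤ r := by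
  rcases x with ⟨b, l⟩ | i
  swap
  · exact absurd rfl hx
  have h := ncard_le_of_range {c | (Sum.inl (b, l) : VV m r) ∈ CC m r c}
    (fun i : ZMod r => (.inl (b + tau m i, l) : VV m r))
    (by
      intro c hc
      rcases c with ⟨a1, k1⟩ | i0
      · have hc' : (Sum.inl (b, l) : VV m r) ∈ CC m r (.inl (a1, k1)) := hc
        rw [mem_CC_l] at hc'
        obtain ⟨h1, i, hi⟩ := hc'
        refine ⟨i, ?_⟩
        simp only [Sum.inl.injEq, Prod.mk.injEq]
        exact ⟨by rw [hi]; ring, h1⟩
      · exact absurd hc not_mem_CC_r)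
  simpa [ZMod.card] using h

theorem CC_card (c : VV m r) : (CC m r c).ncard ≤ 2 * r := by
  rcases c with ⟨a1, k1⟩ | i0
  · have h := ncard_le_of_range (CC m r (.inl (a1, k1)))
      (Sum.elim (fun i : ZMod r => (.inr i : VV m r))
        (fun i : ZMod r => .inl (a1 - tau m i, k1)))
      (by
        intro x hx
        rcases x with ⟨a, k⟩ | i
        · rw [mem_CC_l] at hx
          obtain ⟨h1, i, hi⟩ := hx
          refine ⟨Sum.inr i, ?_⟩
          simp only [Sum.elim_inr, Sum.inl.injEq, Prod.mk.injEq]
          exact ⟨by rw [hi]; ring, h1.symm⟩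
        · exact ⟨Sum.inl i, rfl⟩)
    refine h.trans ?_
    simp only [Fintype.card_sum, ZMod.card]
    omega
  · have h := ncard_le_of_range (CC m r (.inr i0)) (fun i : ZMod r => (.inr i : VV m r))
      (by
        intro x hx
        rcases x with ⟨a, k⟩ | i
        · exact absurd hx not_mem_CC_r
        · exact ⟨i, rfl⟩)
    refine h.trans ?_
    simp only [ZMod.card]
    omega

theorem blk_card (hr : 1 ≤ r) (c c' x : VV m r) (hP : PP m r c c') :
    {y | lab m r c c' y = lab m r c c' x}.ncard ≤ 4 * r := by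
  rcases c' with ⟨a2, k2⟩ | c'
  swap
  · rcases c with c | c <;> exact absurd hP id
  by_cases hx : lab m r c (.inl (a2, k2)) x = none
  · rw [hx]
    rcases c with ⟨a1, k1⟩ | i0
    · have h := ncard_le_of_range {y | lab m r (.inl (a1, k1)) (.inl (a2, k2)) y = none}
        (Sum.elim (fun i : ZMod r => (.inr i : VV m r)) (fun p : ZMod r × ZMod 3 =>
          .inl (if p.2 = k1 then a1 - tau m p.1 else if p.2 = k2 then a2 - tau m p.1 else
            -a1 - a2 - tau m p.1, p.2)))
        (by
          intro y hy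
          rcases y with ⟨b, l⟩ | i
          · have hy' : lab m r (.inl (a1, k1)) (.inl (a2, k2)) (.inl (b, l)) = none := hy
            rw [lab_ll_none] at hy'
            obtain ⟨i, hi⟩ := hy'
            refine ⟨Sum.inr (i, l), ?_⟩
            simp only [Sum.elim_inr, Sum.inl.injEq, Prod.mk.injEq, and_true]
            rw [ell] at hi
            split_ifs at hi ⊢ <;> rw [hi] <;> ring
          · exact ⟨Sum.inl i, rfl⟩)
      refine h.trans ?_
      simp only [Fintype.card_sum, Fintype.card_prod, ZMod.card]
      omega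
    · have h := ncard_le_of_range {y | lab m r (.inr i0) (.inl (a2, k2)) y = none}
        (Sum.elim (fun i : ZMod r => (.inr i : VV m r)) (Sum.elim
          (fun j : ZMod r => .inl (a2 - tau m j, k2))
          (fun j : ZMod r => .inl (a2 + tau m j - 2 * tau m i0, k2))))
        (by
          intro y hy
          rcases y with ⟨b, l⟩ | i
          · have hy' : lab m r (.inr i0) (.inl (a2, k2)) (.inl (b, l)) = none := hy
            rcases lab_il (r := r) (a2 := a2) (b := b) (k2 := k2) (l := l) (i := i0) with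
              ⟨p1, p2, p3⟩ | ⟨p1, p2, p3⟩ | ⟨p1, p3⟩
            · rcases p2 with ⟨j, hj⟩ | ⟨j, hj⟩
              · refine ⟨Sum.inr (Sum.inl j), ?_⟩
                simp only [Sum.elim_inr, Sum.elim_inl, Sum.inl.injEq, Prod.mk.injEq]
                exact ⟨by rw [hj]; ring, p1.symm⟩
              · refine ⟨Sum.inr (Sum.inr j), ?_⟩
                simp only [Sum.elim_inr, Sum.inl.injEq, Prod.mk.injEq]
                exact ⟨by rw [hj]; ring, p1.symm⟩
            · rw [p3] at hy'
              exact absurd hy' (by simp)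
            · rw [p3] at hy'
              exact absurd hy' (by simp)
          · exact ⟨Sum.inl i, rfl⟩)
      refine h.trans ?_
      simp only [Fintype.card_sum, ZMod.card]
      omega
  · rcases x with ⟨a, k⟩ | i
    swap
    · exact absurd (lab_inr _ _ _) hx
    rcases c with ⟨a1, k1⟩ | i0
    · have key : Set.InjOn (fun v : VV m r => (Sum.elim (fun p => p.2) (fun _ => 0) v : ZMod 3))
          {y | lab m r (.inl (a1, k1)) (.inl (a2, k2)) y =
            lab m r (.inl (a1, k1)) (.inl (a2, k2)) (.inl (a, k))} := by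
        rintro y hy y' hy' heq
        rcases y with ⟨b, l⟩ | i
        swap
        · have hy2 : lab m r (.inl (a1, k1)) (.inl (a2, k2)) (.inr i) =
            lab m r (.inl (a1, k1)) (.inl (a2, k2)) (.inl (a, k)) := hy
          rw [lab_inr] at hy2
          exact absurd hy2.symm hx
        rcases y' with ⟨b', l'⟩ | i
        swap
        · have hy2 : lab m r (.inl (a1, k1)) (.inl (a2, k2)) (.inr i) =
            lab m r (.inl (a1, k1)) (.inl (a2, k2)) (.inl (a, k)) := hy'
          rw [lab_inr] at hy2
          exact absurd hy2.symm hx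
        have hl : l = l' := heq
        subst hl
        have e1 := ell_of_lab hx hy
        have e2 := ell_of_lab hx hy'
        rw [ell_inj (e1.trans e2.symm)]
      have h := ncard_le_of_injOn _ _ key
      refine h.trans ?_
      simp only [ZMod.card]
      omega
    · have h := ncard_le_of_range {y | lab m r (.inr i0) (.inl (a2, k2)) y =
          lab m r (.inr i0) (.inl (a2, k2)) (.inl (a, k))}
        (fun t : Bool => if t then (.inl (a, k) : VV m r) else
          (if k = k2 then .inl (2 * a2 - 2 * tau m i0 - a, k) else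
            .inl (-a2 - 2 * tau m i0 - a, -k2 - k)))
        (by
          intro y hy
          rcases y with ⟨b, l⟩ | i
          swap
          · have hy2 : lab m r (.inr i0) (.inl (a2, k2)) (.inr i) =
              lab m r (.inr i0) (.inl (a2, k2)) (.inl (a, k)) := hy
            rw [lab_inr] at hy2
            exact absurd hy2.symm hx
          have hy2 : lab m r (.inr i0) (.inl (a2, k2)) (.inl (b, l)) =
              lab m r (.inr i0) (.inl (a2, k2)) (.inl (a, k)) := hy
          rcases lab_il (r := r) (a2 := a2) (b := a) (k2 := k2) (l := k) (i := i0) with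
              ⟨q1, q2, q3⟩ | ⟨q1, q2, q3⟩ | ⟨q1, q3⟩
          · exact absurd q3 hx
          · rw [q3] at hy2
            rcases lab_il (r := r) (a2 := a2) (b := b) (k2 := k2) (l := l) (i := i0) with
              ⟨p1, p2, p3⟩ | ⟨p1, p2, p3⟩ | ⟨p1, p3⟩ <;> rw [p3] at hy2
            · exact absurd hy2 (by simp)
            all_goals
              rw [Option.some.injEq, Sum.inr.injEq, Sym2.eq_iff] at hy2
              rcases hy2 with ⟨n1, n2⟩ | ⟨n1, n2⟩
              · exact ⟨true, by rw [if_pos rfl, n1]⟩
              · exact ⟨false, by rw [if_neg (by simp), if_pos q1, n1]⟩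
          · rw [q3] at hy2
            rcases lab_il (r := r) (a2 := a2) (b := b) (k2 := k2) (l := l) (i := i0) with
              ⟨p1, p2, p3⟩ | ⟨p1, p2, p3⟩ | ⟨p1, p3⟩ <;> rw [p3] at hy2
            · exact absurd hy2 (by simp)
            all_goals
              rw [Option.some.injEq, Sum.inr.injEq, Sym2.eq_iff] at hy2
              rcases hy2 with ⟨n1, n2⟩ | ⟨n1, n2⟩
              · exact ⟨true, by rw [if_pos rfl, n1]⟩
              · exact ⟨false, by rw [if_neg (by simp), if_neg q1, n1]⟩)
      refine h.trans ?_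
      simp only [Fintype.card_bool]
      omega

theorem card_VV : Fintype.card (VV m r) = 3 * m + r := by
  simp only [Fintype.card_sum, Fintype.card_prod, ZMod.card]
  ring

theorem K6 (hrm : r ≤ m) (c : VV m r) :
    Fintype.card (VV m r) ≤ 2 * {c' | PP m r c c'}.ncard := by
  have key : 2 * m ≤ {c' | PP m r c c'}.ncard := by
    obtain ⟨k1, hk1⟩ : ∃ k1 : ZMod 3, ∀ a k, k ≠ k1 → PP m r c (.inl (a, k)) := by
      rcases c with ⟨a1, k1⟩ | i0
      · exact ⟨k1, fun a k hk => hk.symm⟩
      · exact ⟨0, fun a k _ => trivial⟩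
    have h1 : (Set.univ : Set (ZMod m × Bool)).ncard ≤ {c' | PP m r c c'}.ncard := by
      apply Set.ncard_le_ncard_of_injOn
        (fun p => (.inl (p.1, if p.2 then k1 + 1 else k1 + 2) : VV m r))
      · rintro ⟨a, t⟩ _
        apply hk1
        rcases t with _ | _
        · simp only [Bool.false_eq_true, if_false]
          exact (z3f k1).1
        · simp only [if_true]
          exact (z3f k1).2
      · rintro ⟨a, t⟩ _ ⟨a', t'⟩ _ heq
        simp only [Sum.inl.injEq, Prod.mk.injEq] at heq
        rcases t with _ | _ <;> rcases t' with _ | _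
        · rw [heq.1]
        · exfalso
          have := heq.2
          simp only [Bool.false_eq_true, if_false, if_true] at this
          exact absurd (add_left_cancel this) (by decide)
        · exfalso
          have := heq.2
          simp only [Bool.false_eq_true, if_false, if_true] at this
          exact absurd (add_left_cancel this) (by decide)
        · rw [heq.1]
    rw [Set.ncard_univ, Nat.card_eq_fintype_card, Fintype.card_prod, ZMod.card,
      Fintype.card_bool] at h1
    omega
  rw [card_VV]
  omega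

open Classical in
/-- The concrete switchable Latin square. -/
noncomputable def base (hm : Odd m) (hr : r ≤ 6) (hrm : r ≤ m) : Base (VV m r) 24 where
  R := RR m r
  z0 := .inr 0
  Z := (Set.toFinset {x : VV m r | x.isRight})
  C c := (Set.toFinset (CC m r c))
  Pt := PP m r
  blk c c' x := (Set.toFinset {y | lab m r c c' y = lab m r c c' x})
  R_inj := RR_inj hrm
  R_inj' := RR_inj' hm hrm
  z0_C c := by
    rw [Set.mem_toFinset]
    exact inr_mem_CC c 0
  Z_card := by
    rw [← Set.ncard_eq_toFinset_card']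
    have h := ncard_le_of_range {x : VV m r | x.isRight} (fun i : ZMod r => (.inr i : VV m r))
      (by
        intro x hx
        rcases x with x | i
        · exact absurd hx (by simp)
        · exact ⟨i, rfl⟩)
    rw [ZMod.card] at h
    omega
  Pt_ne := by
    intro c c' h e
    subst e
    rcases c with ⟨a, k⟩ | c
    · exact (show k ≠ k from h) rfl
    · exact h
  mem_blk c c' x := by
    rw [Set.mem_toFinset]
    exact rfl
  blk_eq := by
    intro c c' x y h
    rw [Set.mem_toFinset] at h
    have h' : lab m r c c' y = lab m r c c' x := h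
    ext z
    rw [Set.mem_toFinset, Set.mem_toFinset]
    exact ⟨fun g => (show lab m r c c' z = lab m r c c' y from g).trans h',
      fun g => (show lab m r c c' z = lab m r c c' x from g).trans h'.symm⟩
  blk_R := by
    intro c c' x y hP h
    rw [Set.mem_toFinset]
    exact lab_R c c' x y hP h
  C_blk := by
    intro c c' x hP hx
    rw [Set.mem_toFinset] at hx ⊢
    show lab m r c c' x = lab m r c c' (.inr 0)
    rw [lab_inr]
    exact lab_of_CC c c' x hP hx
  C_blk' := by
    intro c c' x hP hx
    rw [Set.mem_toFinset] at hx ⊢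
    show lab m r c c' x = lab m r c c' (.inr 0)
    rw [lab_inr]
    exact lab_of_CC' c c' x hP hx
  blk_card := by
    intro c c' x hP
    rw [← Set.ncard_eq_toFinset_card']
    have := blk_card (Nat.one_le_iff_ne_zero.2 (NeZero.ne r)) c c' x hP
    omega
  C_card := by
    intro c
    rw [← Set.ncard_eq_toFinset_card']
    have := CC_card c
    omega
  K1 := by
    intro c x z hxz
    have h := K1 hm c x z hxz
    refine le_trans (Set.ncard_le_ncard ?_ (Set.toFinite _)) (h.trans (by norm_num))
    rintro c' ⟨h1, h2, h3⟩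
    rw [Set.mem_toFinset] at h2 h3
    refine ⟨h1, ?_, h3⟩
    intro h4
    apply h2
    show lab m r c c' (.inr 0) = lab m r c c' x
    rw [lab_inr, h4]
  K2 := by
    intro c' x z hxz
    have h := K2 hm c' x z hxz
    refine le_trans (Set.ncard_le_ncard ?_ (Set.toFinite _)) (h.trans (by omega))
    rintro c ⟨h1, h2, h3⟩
    rw [Set.mem_toFinset] at h2 h3
    refine ⟨h1, ?_, h3⟩
    intro h4
    apply h2
    show lab m r c c' (.inr 0) = lab m r c c' x
    rw [lab_inr, h4]
  K3 := by
    intro c z hz
    rw [Set.mem_toFinset] at hz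
    have h := K3 c z hz
    refine le_trans (Set.ncard_le_ncard ?_ (Set.toFinite _)) (h.trans (by omega))
    rintro c' ⟨h1, h3⟩
    rw [Set.mem_toFinset] at h3
    refine ⟨h1, ?_⟩
    have h4 : lab m r c c' z = lab m r c c' (.inr 0) := h3
    rw [h4, lab_inr]
  K4 := by
    intro x hx
    rw [Set.mem_toFinset] at hx
    have h := K4 x hx
    refine le_trans (Set.ncard_le_ncard ?_ (Set.toFinite _)) (h.trans (by omega))
    intro c hc
    have hc' : x ∈ Set.toFinset (CC m r c) := hc
    rw [Set.mem_toFinset] at hc'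
    exact hc'
  K6 := K6 hrm

end Conc

end Pool.Agent.Lib.MP_7580b0_co
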