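import Pool.Agent.Lib.MP_7580b0_co.Abstract

/-!
# A switchable Latin square of every large order

`V = (Z_m × Z_3) ⊔ Z_r` with `m` odd, `1 ≤ r ≤ 6`.
-/

namespace Pool.Agent.Lib.MP_7580b0_co

open Finset

namespace Conc

theorem ncard_le_of_injOn {α β : Type*} [Fintype β] (S : Set α) (g : α → β)
    (hg : Set.InjOn g S) : S.ncard ≤ Fintype.card β := by
  have h1 : S.ncard ≤ (Set.univ : Set β).ncard :=
    Set.ncard_le_ncard_of_injOn g (fun _ _ => Set.mem_univ _) hg (Set.toFinite _)
  rwa [Set.ncard_univ, Nat.card_eq_fintype_card] at h1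

theorem ncard_le_of_range {α β : Type*} [Fintype β] (S : Set α) (f : β → α)
    (hf : ∀ x ∈ S, ∃ y, f y = x) : S.ncard ≤ Fintype.card β := by
  have h1 : S.ncard ≤ (Set.range f).ncard := Set.ncard_le_ncard hf (Set.finite_range f)
  refine h1.trans ?_
  rw [← Set.image_univ]
  refine (Set.ncard_image_le (Set.toFinite _)).trans ?_
  rw [Set.ncard_univ, Nat.card_eq_fintype_card]

theorem z3a : ∀ k1 k2 k l : ZMod 3, k1 ≠ k2 → k ≠ k1 → l ≠ k2 → -k1 - k = -k2 - l →
    k = k2 ∧ l = k1 := by decide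

theorem z3b : ∀ k1 k2 k l : ZMod 3, (k1 ≠ k2 ∧ k ≠ k1 ∧ k ≠ k2 ∧ l ≠ k1 ∧ l ≠ k2) → k = l := by
  decide

theorem z3c : ∀ k1 k2 : ZMod 3, k1 ≠ k2 → -k1 - k2 ≠ k1 ∧ -k1 - k2 ≠ k2 := by decide

theorem z3d : ∀ k1 k2 k : ZMod 3, k1 ≠ k2 → k ≠ k1 → k ≠ k2 → k2 = -k1 - k := by decide

theorem z3e : ∀ k1 k2 k : ZMod 3, k1 ≠ k2 → k ≠ k2 → -k2 - k = k1 → k ≠ k1 ∧ k ≠ k2 := by decide

set_option linter.unusedSectionVars false

variable {m r : ℕ} [NeZero m] [NeZero r]

/-- the shifts -/
def tau (m : ℕ) {r : ℕ} (i : ZMod r) : ZMod m := (i.val : ZMod m)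

theorem tau_inj (hrm : r ≤ m) : Function.Injective (tau m (r := r)) := by
  intro i j h
  unfold tau at h
  have hi := ZMod.val_lt i
  have hj := ZMod.val_lt j
  have h2 := congrArg ZMod.val h
  rw [ZMod.val_natCast, ZMod.val_natCast, Nat.mod_eq_of_lt (by omega),
    Nat.mod_eq_of_lt (by omega)] at h2
  exact ZMod.val_injective r h2

open Classical in
/-- the index of a shift -/
noncomputable def sp (m r : ℕ) (d : ZMod m) : Option (ZMod r) :=
  if h : ∃ i : ZMod r, tau m i = d then some h.choose else none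

theorem sp_some {d : ZMod m} {i : ZMod r} (h : sp m r d = some i) : tau m i = d := by
  unfold sp at h
  split_ifs at h with h1
  have := h1.choose_spec
  rw [Option.some.injEq] at h
  rwa [h] at this

theorem sp_none {d : ZMod m} (h : sp m r d = none) (i : ZMod r) : tau m i ≠ d := by
  unfold sp at h
  split_ifs at h with h1
  push Not at h1
  exact h1 i

theorem sp_tau (hrm : r ≤ m) {d : ZMod m} {i : ZMod r} (h : tau m i = d) :
    sp m r d = some i := by
  rcases h1 : sp m r d with _ | j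
  · exact absurd h (sp_none h1 i)
  · have := sp_some h1
    rw [tau_inj hrm (this.trans h.symm)]

/-- the vertex set -/
abbrev VV (m r : ℕ) := (ZMod m × ZMod 3) ⊕ ZMod r

/-- the Latin square -/
noncomputable def RR (m r : ℕ) : VV m r → VV m r → VV m r
  | .inl (a', k'), .inl (a, k) =>
    if k = k' then
      (match sp m r (a' - a) with
        | some i => .inr i
        | none => .inl (2 * a' - a, k'))
    else .inl (-a' - a, -k' - k)
  | .inl (a', k'), .inr i => .inl (a' + tau m i, k')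
  | .inr i, .inl (a, k) => .inl (a + 2 * tau m i, k)
  | .inr i, .inr j => .inr (i + j)

theorem RR_same {a' a : ZMod m} {k : ZMod 3} (h : sp m r (a' - a) = none) :
    RR m r (.inl (a', k)) (.inl (a, k)) = .inl (2 * a' - a, k) := by
  simp only [RR, if_true, h]

theorem RR_special {a' a : ZMod m} {k : ZMod 3} {i : ZMod r} (h : sp m r (a' - a) = some i) :
    RR m r (.inl (a', k)) (.inl (a, k)) = .inr i := by
  simp only [RR, if_true, h]

theorem RR_diff {a' a : ZMod m} {k' k : ZMod 3} (h : k ≠ k') :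
    RR m r (.inl (a', k')) (.inl (a, k)) = .inl (-a' - a, -k' - k) := by
  simp only [RR, if_neg h]

theorem RR_li {a' : ZMod m} {k' : ZMod 3} {i : ZMod r} :
    RR m r (.inl (a', k')) (.inr i) = .inl (a' + tau m i, k') := rfl

theorem RR_il {a : ZMod m} {k : ZMod 3} {i : ZMod r} :
    RR m r (.inr i) (.inl (a, k)) = .inl (a + 2 * tau m i, k) := rfl

theorem RR_ii {i j : ZMod r} :
    RR m r (.inr i) (.inr j) = .inr (i + j) := rfl

/-- the values of the square at regular arguments -/
theorem RR_cases (a' a : ZMod m) (k' k : ZMod 3) :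
    (k = k' ∧ ∃ i, tau m i = a' - a ∧ RR m r (.inl (a', k')) (.inl (a, k)) = .inr i) ∨
    (k = k' ∧ (∀ i : ZMod r, tau m i ≠ a' - a) ∧
      RR m r (.inl (a', k')) (.inl (a, k)) = .inl (2 * a' - a, k')) ∨
    (k ≠ k' ∧ RR m r (.inl (a', k')) (.inl (a, k)) = .inl (-a' - a, -k' - k)) := by
  by_cases hk : k = k'
  · subst hk
    rcases h : sp m r (a' - a) with _ | i
    · right; left
      exact ⟨rfl, fun i => sp_none h i, RR_same h⟩
    · left
      exact ⟨rfl, i, sp_some h, RR_special h⟩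
  · right; right
    exact ⟨hk, RR_diff hk⟩

theorem RR_inj (hrm : r ≤ m) (c : VV m r) : Function.Injective (RR m r c) := by
  intro x y h
  rcases c with ⟨a1, k1⟩ | c
  · rcases x with ⟨a, k⟩ | i <;> rcases y with ⟨b, l⟩ | j
    · rcases RR_cases (r := r) a1 a k1 k with ⟨hk, i, hi, e1⟩ | ⟨hk, hi, e1⟩ | ⟨hk, e1⟩ <;>
      rcases RR_cases (r := r) a1 b k1 l with ⟨hl, j, hj, e2⟩ | ⟨hl, hj, e2⟩ | ⟨hl, e2⟩ <;>
      rw [e1, e2] at h
      · rw [Sum.inr.injEq] at h
        subst h
        rw [hi] at hj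
        rw [hk, hl, sub_right_injective.eq_iff.1 hj]
      · exact absurd h (by simp)
      · exact absurd h (by simp)
      · exact absurd h (by simp)
      · rw [Sum.inl.injEq, Prod.mk.injEq] at h
        rw [hk, hl, sub_right_injective.eq_iff.1 h.1]
      · rw [Sum.inl.injEq, Prod.mk.injEq] at h
        exact absurd h.2.symm (z3c _ _ (Ne.symm hl)).1
      · exact absurd h (by simp)
      · rw [Sum.inl.injEq, Prod.mk.injEq] at h
        exact absurd h.2 (z3c _ _ (Ne.symm hk)).1
      · rw [Sum.inl.injEq, Prod.mk.injEq] at h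
        rw [sub_right_injective.eq_iff.1 h.1, sub_right_injective.eq_iff.1 h.2]
    · rw [RR_li] at h
      rcases RR_cases (r := r) a1 a k1 k with ⟨rfl, i, hi, e1⟩ | ⟨rfl, hi, e1⟩ | ⟨hk, e1⟩ <;>
      rw [e1] at h
      · exact absurd h (by simp)
      · rw [Sum.inl.injEq, Prod.mk.injEq] at h
        exact absurd (by linear_combination -h.1) (hi j)
      · rw [Sum.inl.injEq, Prod.mk.injEq] at h
        exact absurd h.2 (z3c _ _ (Ne.symm hk)).1
    · rw [RR_li] at h
      rcases RR_cases (r := r) a1 b k1 l with ⟨rfl, j, hj, e1⟩ | ⟨rfl, hj, e1⟩ | ⟨hl, e1⟩ <;>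
      rw [e1] at h
      · exact absurd h (by simp)
      · rw [Sum.inl.injEq, Prod.mk.injEq] at h
        exact absurd (by linear_combination h.1) (hj i)
      · rw [Sum.inl.injEq, Prod.mk.injEq] at h
        exact absurd h.2.symm (z3c _ _ (Ne.symm hl)).1
    · rw [RR_li, RR_li, Sum.inl.injEq, Prod.mk.injEq] at h
      have := tau_inj hrm (add_left_cancel h.1)
      rw [this]
  · rcases x with ⟨a, k⟩ | i <;> rcases y with ⟨b, l⟩ | j
    · rw [RR_il, RR_il, Sum.inl.injEq, Prod.mk.injEq] at h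
      rw [add_right_cancel h.1, h.2]
    · exact absurd h (by simp [RR])
    · exact absurd h (by simp [RR])
    · rw [RR_ii, RR_ii, Sum.inr.injEq] at h
      rw [add_left_cancel h]

theorem two_cancel (hm : Odd m) {a b : ZMod m} (h : 2 * a = 2 * b) : a = b := by
  have hu : IsUnit (2 : ZMod m) := by
    have : IsUnit ((2 : ℕ) : ZMod m) := by
      rw [ZMod.isUnit_iff_coprime]
      exact (Nat.coprime_two_left).2 hm
    simpa using this
  exact hu.mul_left_cancel h

theorem RR_inj' (hm : Odd m) (hrm : r ≤ m) (x : VV m r) :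
    Function.Injective (fun c => RR m r c x) := by
  intro c d h
  simp only at h
  rcases x with ⟨a, k⟩ | x
  · rcases c with ⟨a1, k1⟩ | i <;> rcases d with ⟨a2, k2⟩ | j
    · rcases RR_cases (r := r) a1 a k1 k with ⟨hk, i, hi, e1⟩ | ⟨hk, hi, e1⟩ | ⟨hk, e1⟩ <;>
      rcases RR_cases (r := r) a2 a k2 k with ⟨hl, j, hj, e2⟩ | ⟨hl, hj, e2⟩ | ⟨hl, e2⟩ <;>
      rw [e1, e2] at h
      · rw [Sum.inr.injEq] at h
        subst h
        rw [hi] at hj
        have := sub_left_injective hj
        rw [this, ← hk, ← hl]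
      · exact absurd h (by simp)
      · exact absurd h (by simp)
      · exact absurd h (by simp)
      · rw [Sum.inl.injEq, Prod.mk.injEq] at h
        have h1 : 2 * a1 = 2 * a2 := sub_left_injective h.1
        rw [two_cancel hm h1, h.2]
      · rw [Sum.inl.injEq, Prod.mk.injEq] at h
        rw [← hk] at h
        exact absurd h.2.symm (z3c _ _ (Ne.symm hl)).2
      · exact absurd h (by simp)
      · rw [Sum.inl.injEq, Prod.mk.injEq] at h
        rw [← hl] at h
        exact absurd h.2 (z3c _ _ (Ne.symm hk)).2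
      · rw [Sum.inl.injEq, Prod.mk.injEq] at h
        have h1 : a1 = a2 := by linear_combination -h.1
        have h2 : k1 = k2 := by linear_combination -h.2
        rw [h1, h2]
    · rw [RR_il] at h
      rcases RR_cases (r := r) a1 a k1 k with ⟨rfl, i, hi, e1⟩ | ⟨rfl, hi, e1⟩ | ⟨hk, e1⟩ <;>
      rw [e1] at h
      · exact absurd h (by simp)
      · rw [Sum.inl.injEq, Prod.mk.injEq] at h
        have h1 : 2 * (tau m j) = 2 * (a1 - a) := by linear_combination -h.1
        exact absurd (two_cancel hm h1) (hi j)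
      · rw [Sum.inl.injEq, Prod.mk.injEq] at h
        exact absurd h.2 (z3c _ _ (Ne.symm hk)).2
    · rw [RR_il] at h
      rcases RR_cases (r := r) a2 a k2 k with ⟨rfl, j, hj, e1⟩ | ⟨rfl, hj, e1⟩ | ⟨hl, e1⟩ <;>
      rw [e1] at h
      · exact absurd h (by simp)
      · rw [Sum.inl.injEq, Prod.mk.injEq] at h
        have h1 : 2 * (tau m i) = 2 * (a2 - a) := by linear_combination h.1
        exact absurd (two_cancel hm h1) (hj i)
      · rw [Sum.inl.injEq, Prod.mk.injEq] at h
        exact absurd h.2.symm (z3c _ _ (Ne.symm hl)).2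
    · rw [RR_il, RR_il, Sum.inl.injEq, Prod.mk.injEq] at h
      rw [tau_inj hrm (two_cancel hm (add_left_cancel h.1))]
  · rcases c with ⟨a1, k1⟩ | i <;> rcases d with ⟨a2, k2⟩ | j
    · rw [RR_li, RR_li, Sum.inl.injEq, Prod.mk.injEq] at h
      rw [add_right_cancel h.1, h.2]
    · exact absurd h (by simp [RR])
    · exact absurd h (by simp [RR])
    · rw [RR_ii, RR_ii, Sum.inr.injEq] at h
      rw [add_right_cancel h]

end Conc

end Pool.Agent.Lib.MP_7580b0_co
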