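import Mathlib

/-!
# Random isotopies hit a sparse set rarely

`event_bound`: a counting form of the statement that four random bijections map few tuples of a
well spread family into a set `F` of quadruples with few elements on every line.
-/

namespace Pool.Agent.Lib.MP_7580b0_co

open Finset

section Hits

variable {V V' : Type*} [Fintype V] [DecidableEq V] [Fintype V'] [DecidableEq V']

theorem count_prescribed (S : V → Finset V') (k : ℕ) (hS : ∀ v, (S v).card ≤ k) (A : Finset V) :
    (univ.filter (fun p : V ≃ V' => ∀ v ∈ A, p v ∈ S v)).card *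
      (Fintype.card V).descFactorial A.card ≤ k ^ A.card * Fintype.card (V ≃ V') := by
  induction A using Finset.induction_on with
  | empty =>
    simp
  | insert v0 A hv0 ih =>
    rw [Finset.card_insert_of_notMem hv0, Nat.descFactorial_succ]
    have h1 : (univ.filter (fun p : V ≃ V' => ∀ v ∈ insert v0 A, p v ∈ S v)).card *
        (Fintype.card V - A.card) ≤
        k * (univ.filter (fun p : V ≃ V' => ∀ v ∈ A, p v ∈ S v)).card := by
      have e1 : (Fintype.card V - A.card) = (univ \ A).card := by
        rw [Finset.card_sdiff_of_subset (Finset.subset_univ A), Finset.card_univ]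
      rw [e1, ← Finset.card_product]
      have h2 : ((univ.filter (fun p : V ≃ V' => ∀ v ∈ insert v0 A, p v ∈ S v)) ×ˢ
          (univ \ A)).card ≤
          ((univ.filter (fun p : V ≃ V' => ∀ v ∈ A, p v ∈ S v)).sigma
            (fun p => univ.filter (fun u => p u ∈ S v0))).card := by
        apply Finset.card_le_card_of_injOn
          (fun q => (⟨(Equiv.swap v0 q.2).trans q.1, q.2⟩ : Σ _ : (V ≃ V'), V))
        · rintro ⟨p, u⟩ hq
          simp only [coe_product, Set.mem_prod, mem_coe, mem_filter, mem_univ, true_and,
            mem_sdiff] at hq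
          obtain ⟨h3, h4⟩ := hq
          simp only [mem_coe, mem_sigma, mem_filter, mem_univ, true_and, Equiv.trans_apply]
          refine ⟨?_, by simpa using h3 v0 (mem_insert_self _ _)⟩
          intro v hv
          have e2 : v ≠ v0 := fun e => hv0 (e ▸ hv)
          have e3 : v ≠ u := fun e => h4 (e ▸ hv)
          rw [Equiv.swap_apply_of_ne_of_ne e2 e3]
          exact h3 v (mem_insert_of_mem hv)
        · rintro ⟨p, u⟩ _ ⟨q, w⟩ _ heq
          simp only [Sigma.mk.injEq, heq_eq_eq] at heq
          obtain ⟨h3, h4⟩ := heq
          subst h4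
          have : p = q := by
            ext x
            have := congrArg (fun f : V ≃ V' => f (Equiv.swap v0 u x)) h3
            simpa using this
          rw [this]
      refine h2.trans ?_
      rw [Finset.card_sigma]
      calc ∑ p ∈ univ.filter (fun p : V ≃ V' => ∀ v ∈ A, p v ∈ S v),
            (univ.filter (fun u => p u ∈ S v0)).card
          ≤ ∑ p ∈ univ.filter (fun p : V ≃ V' => ∀ v ∈ A, p v ∈ S v), k := by
            apply Finset.sum_le_sum
            intro p _
            refine le_trans ?_ (hS v0)
            apply Finset.card_le_card_of_injOn p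
            · intro u hu
              simpa using hu
            · exact p.injective.injOn
        _ = _ := by rw [Finset.sum_const, smul_eq_mul, mul_comm]
    calc (univ.filter (fun p : V ≃ V' => ∀ v ∈ insert v0 A, p v ∈ S v)).card *
          ((Fintype.card V - A.card) * (Fintype.card V).descFactorial A.card)
        = ((univ.filter (fun p : V ≃ V' => ∀ v ∈ insert v0 A, p v ∈ S v)).card *
          (Fintype.card V - A.card)) * (Fintype.card V).descFactorial A.card := by ring
      _ ≤ (k * (univ.filter (fun p : V ≃ V' => ∀ v ∈ A, p v ∈ S v)).card) *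
          (Fintype.card V).descFactorial A.card := Nat.mul_le_mul_right _ h1
      _ = k * ((univ.filter (fun p : V ≃ V' => ∀ v ∈ A, p v ∈ S v)).card *
          (Fintype.card V).descFactorial A.card) := by ring
      _ ≤ k * (k ^ A.card * Fintype.card (V ≃ V')) := Nat.mul_le_mul_left _ ih
      _ = k ^ (A.card + 1) * Fintype.card (V ≃ V') := by ring

theorem perm_hits (S : V → Finset V') (k : ℕ) (hS : ∀ v, (S v).card ≤ k) (K : ℕ) :
    (univ.filter (fun p : V ≃ V' => K ≤ (univ.filter (fun v => p v ∈ S v)).card)).card *
      K.factorial ≤ k ^ K * Fintype.card (V ≃ V') := by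
  by_cases hK : K ≤ Fintype.card V
  · have h1 : (univ.filter (fun p : V ≃ V' => K ≤ (univ.filter (fun v => p v ∈ S v)).card)).card ≤
        ∑ A ∈ powersetCard K (univ : Finset V),
          (univ.filter (fun p : V ≃ V' => ∀ v ∈ A, p v ∈ S v)).card := by
      refine le_trans (Finset.card_le_card ?_) Finset.card_biUnion_le
      intro p hp
      simp only [mem_filter, mem_univ, true_and] at hp
      obtain ⟨A, hA1, hA2⟩ := Finset.exists_subset_card_eq hp
      simp only [mem_biUnion, mem_powersetCard, mem_filter, mem_univ, true_and]
      refine ⟨A, ⟨Finset.subset_univ _, hA2⟩, fun v hv => ?_⟩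
      have := hA1 hv
      simpa using this
    have h2 : (univ.filter (fun p : V ≃ V' => K ≤ (univ.filter (fun v => p v ∈ S v)).card)).card *
        (Fintype.card V).descFactorial K ≤
        (Fintype.card V).choose K * (k ^ K * Fintype.card (V ≃ V')) := by
      calc _ ≤ (∑ A ∈ powersetCard K (univ : Finset V),
          (univ.filter (fun p : V ≃ V' => ∀ v ∈ A, p v ∈ S v)).card) *
            (Fintype.card V).descFactorial K := Nat.mul_le_mul_right _ h1
        _ = ∑ A ∈ powersetCard K (univ : Finset V),
          (univ.filter (fun p : V ≃ V' => ∀ v ∈ A, p v ∈ S v)).card *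
            (Fintype.card V).descFactorial K := by rw [Finset.sum_mul]
        _ ≤ ∑ A ∈ powersetCard K (univ : Finset V), k ^ K * Fintype.card (V ≃ V') := by
            apply Finset.sum_le_sum
            intro A hA
            have hA' := (mem_powersetCard.1 hA).2
            have := count_prescribed S k hS A
            rwa [hA'] at this
        _ = _ := by
            rw [Finset.sum_const, Finset.card_powersetCard, Finset.card_univ, smul_eq_mul]
    rw [Nat.descFactorial_eq_factorial_mul_choose] at h2
    have hpos : 0 < (Fintype.card V).choose K := Nat.choose_pos hK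
    apply Nat.le_of_mul_le_mul_left _ hpos
    calc _ = _ := by ring
      _ ≤ _ := h2
  · have : (univ.filter (fun p : V ≃ V' => K ≤ (univ.filter (fun v => p v ∈ S v)).card)) = ∅ := by
      apply Finset.filter_eq_empty_iff.2
      intro p _ h
      exact hK (h.trans (Finset.card_le_univ _))
    rw [this]
    simp

/-- lifting to four bijections -/
theorem pi_lift (i : Fin 4) (Bad : (Fin 4 → (V ≃ V')) → Prop) [DecidablePred Bad] (c d : ℕ)
    (hpos : 0 < Fintype.card (V ≃ V'))
    (h : ∀ π : Fin 4 → (V ≃ V'), (univ.filter (fun p : V ≃ V' =>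
      Bad (Function.update π i p))).card * c ≤ d * Fintype.card (V ≃ V')) :
    (univ.filter (fun π : Fin 4 → (V ≃ V') => Bad π)).card * c ≤
      d * Fintype.card (Fin 4 → (V ≃ V')) := by
  have h1 : (univ.filter (fun π : Fin 4 → (V ≃ V') => Bad π)).card * Fintype.card (V ≃ V') ≤
      ∑ π : Fin 4 → (V ≃ V'), (univ.filter (fun p : V ≃ V' =>
        Bad (Function.update π i p))).card := by
    rw [← Finset.card_sigma, ← Finset.card_univ, ← Finset.card_product]
    apply Finset.card_le_card_of_injOn
      (fun q => (⟨Function.update q.1 i q.2, q.1 i⟩ : Σ _ : (Fin 4 → (V ≃ V')), (V ≃ V')))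
    · rintro ⟨π, q⟩ hq
      simp only [coe_product, Set.mem_prod, mem_coe, mem_filter, mem_univ, true_and,
        and_true] at hq
      simp only [mem_coe, mem_sigma, mem_filter, mem_univ, true_and, Function.update_idem,
        Function.update_eq_self]
      exact hq
    · rintro ⟨π, q⟩ _ ⟨π', q'⟩ _ heq
      simp only [Sigma.mk.injEq, heq_eq_eq] at heq
      obtain ⟨h3, h4⟩ := heq
      have h5 : q = q' := by
        have := congrFun h3 i
        simpa using this
      have h6 : π = π' := by
        funext l
        by_cases hl : l = i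
        · rw [hl, h4]
        · have := congrFun h3 l
          rwa [Function.update_of_ne hl, Function.update_of_ne hl] at this
      rw [h5, h6]
  apply Nat.le_of_mul_le_mul_left _ hpos
  calc Fintype.card (V ≃ V') * ((univ.filter (fun π : Fin 4 → (V ≃ V') => Bad π)).card * c)
      = ((univ.filter (fun π : Fin 4 → (V ≃ V') => Bad π)).card * Fintype.card (V ≃ V')) * c := by
        ring
    _ ≤ (∑ π : Fin 4 → (V ≃ V'), (univ.filter (fun p : V ≃ V' =>
        Bad (Function.update π i p))).card) * c := Nat.mul_le_mul_right _ h1
    _ = ∑ π : Fin 4 → (V ≃ V'), (univ.filter (fun p : V ≃ V' =>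
        Bad (Function.update π i p))).card * c := by rw [Finset.sum_mul]
    _ ≤ ∑ π : Fin 4 → (V ≃ V'), d * Fintype.card (V ≃ V') :=
        Finset.sum_le_sum (fun π _ => h π)
    _ = _ := by
        rw [Finset.sum_const, Finset.card_univ, smul_eq_mul]
        ring

open Classical in
/-- **The hits lemma.** -/
theorem event_bound {ι : Type*} (F : (Fin 4 → V') → Prop) (k : ℕ)
    (hF : ∀ (i : Fin 4) (v : Fin 4 → V'),
      (univ.filter (fun s => F (Function.update v i s))).card ≤ k)
    (J : Finset ι) (E : ι → Finset (Fin 4 → V)) (i : Fin 4) (D s K : ℕ) (hD : 0 < D)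
    (hs : ∀ j ∈ J, (E j).card ≤ s)
    (hmul : ∀ v, (J.filter (fun j => ∃ t ∈ E j, t i = v)).card ≤ D)
    (hpos : 0 < Fintype.card (V ≃ V')) :
    (univ.filter (fun π : Fin 4 → (V ≃ V') =>
      D * K ≤ (J.filter (fun j => ∃ t ∈ E j, F (fun l => π l (t l)))).card)).card *
        K.factorial ≤ (D * s * k) ^ K * Fintype.card (Fin 4 → (V ≃ V')) := by
  apply pi_lift i _ _ _ hpos
  intro π
  -- the forbidden lists
  let S : V → Finset V' := fun v => (J.filter (fun j => ∃ t ∈ E j, t i = v)).biUnion (fun j =>
    ((E j).filter (fun t => t i = v)).biUnion (fun t =>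
      univ.filter (fun x => F (Function.update (fun l => π l (t l)) i x))))
  have hS : ∀ v, (S v).card ≤ D * s * k := by
    intro v
    calc (S v).card ≤ ∑ j ∈ J.filter (fun j => ∃ t ∈ E j, t i = v), ∑ t ∈ (E j).filter
          (fun t => t i = v), (univ.filter
            (fun x => F (Function.update (fun l => π l (t l)) i x))).card := by
          refine Finset.card_biUnion_le.trans ?_
          exact Finset.sum_le_sum (fun j _ => Finset.card_biUnion_le)
      _ ≤ ∑ j ∈ J.filter (fun j => ∃ t ∈ E j, t i = v), s * k := by
          apply Finset.sum_le_sum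
          intro j hj
          calc _ ≤ ∑ t ∈ (E j).filter (fun t => t i = v), k :=
                Finset.sum_le_sum (fun t _ => hF i _)
            _ = ((E j).filter (fun t => t i = v)).card * k := by
                rw [Finset.sum_const, smul_eq_mul]
            _ ≤ s * k := Nat.mul_le_mul_right _
                ((Finset.card_filter_le _ _).trans (hs j (mem_filter.1 hj).1))
      _ = (J.filter (fun j => ∃ t ∈ E j, t i = v)).card * (s * k) := by
          rw [Finset.sum_const, smul_eq_mul]
      _ ≤ D * (s * k) := Nat.mul_le_mul_right _ (hmul v)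
      _ = D * s * k := by ring
  refine le_trans (Nat.mul_le_mul_right _ (Finset.card_le_card ?_)) (perm_hits S _ hS K)
  intro p hp
  simp only [mem_filter, mem_univ, true_and] at hp ⊢
  have h1 : (J.filter (fun j => ∃ t ∈ E j,
      F (fun l => (Function.update π i p) l (t l)))).card ≤
      ∑ v ∈ univ.filter (fun v => p v ∈ S v),
        (J.filter (fun j => ∃ t ∈ E j, t i = v)).card := by
    refine le_trans (Finset.card_le_card ?_) Finset.card_biUnion_le
    intro j hj
    obtain ⟨hjJ, t, ht, hFt⟩ := mem_filter.1 hj
    simp only [mem_biUnion, mem_filter, mem_univ, true_and]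
    refine ⟨t i, ?_, hjJ, t, ht, rfl⟩
    simp only [S, mem_biUnion, mem_filter, mem_univ, true_and]
    refine ⟨j, ⟨hjJ, t, ht, rfl⟩, t, ⟨ht, rfl⟩, ?_⟩
    have : (fun l => (Function.update π i p) l (t l)) =
        Function.update (fun l => π l (t l)) i (p (t i)) := by
      funext l
      by_cases hl : l = i
      · subst hl; simp
      · rw [Function.update_of_ne hl, Function.update_of_ne hl]
    rw [this] at hFt
    exact hFt
  have h2 : ∑ v ∈ univ.filter (fun v => p v ∈ S v),
        (J.filter (fun j => ∃ t ∈ E j, t i = v)).card ≤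
        (univ.filter (fun v => p v ∈ S v)).card * D := by
    rw [← smul_eq_mul, ← Finset.sum_const]
    exact Finset.sum_le_sum (fun v _ => hmul v)
  have h3 : D * K ≤ D * (univ.filter (fun v => p v ∈ S v)).card := by
    calc D * K ≤ _ := hp
      _ ≤ _ := h1
      _ ≤ _ := h2
      _ = _ := mul_comm _ _
  exact Nat.le_of_mul_le_mul_left h3 hD

end Hits

end Pool.Agent.Lib.MP_7580b0_co
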