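import Pool.Agent.Lib.MP_7580b0_co.Select
import Pool.Agent.Lib.MP_7580b0_co.Hits

/-!
# From a switchable Latin square to a Latin cube avoiding a sparse set
-/

namespace Pool.Agent.Lib.MP_7580b0_co

open Finset

/-- Given a Latin square `R` and a map `σ` of colours that respects switches, there is a Latin cube
with cells `(x, y, R d y, R (σ d x y) x)`. -/
theorem cube_of_sigma {V : Type*} [Finite V] (R : V → V → V)
    (hR1 : ∀ c, Function.Injective (R c)) (hR2 : ∀ x, Function.Injective (fun c => R c x))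
    (σ : V → V → V → V) (h0 : ∀ x y, Function.Injective (fun c => σ c x y))
    (hX : ∀ d c x x2 y, σ d x y = c → R c x = R d x2 → σ d x2 y = c)
    (hY : ∀ d c x y y2, σ d x y = c → R d y = R c y2 → σ c x y2 = d) :
    ∃ L : V → V → V → V, (∀ x y, Function.Injective (L x y)) ∧
      (∀ y z, Function.Injective (fun x => L x y z)) ∧
      (∀ x z, Function.Injective (fun y => L x y z)) ∧
      ∀ x y z, ∃ d, R d y = z ∧ L x y z = R (σ d x y) x := by
  have hs1 : ∀ c, Function.Surjective (R c) := fun c => Finite.surjective_of_injective (hR1 c)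
  have hs2 : ∀ x, Function.Surjective (fun c => R c x) :=
    fun x => Finite.surjective_of_injective (hR2 x)
  choose g hg using hs2
  simp only at hg
  refine ⟨fun x y z => R (σ (g y z) x y) x, ?_, ?_, ?_, ?_⟩
  · intro x y z z' h
    have h1 := h0 x y (hR2 x h)
    rw [← hg y z, ← hg y z', h1]
  · intro y z x x' h
    simp only at h
    obtain ⟨x'', hx''⟩ := hs1 (g y z) (R (σ (g y z) x y) x)
    have h1 := hX (g y z) _ x x'' y rfl hx''.symm
    have h2 := hX (g y z) _ x' x'' y rfl (by rw [hx'', h])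
    have h3 : σ (g y z) x y = σ (g y z) x' y := h1.symm.trans h2
    rw [h3] at h
    exact hR1 _ h
  · intro x z y y' h
    simp only at h
    have h1 : σ (g y z) x y = σ (g y' z) x y' := hR2 x h
    obtain ⟨y'', hy''⟩ := hs1 (σ (g y z) x y) z
    have h2 := hY (g y z) _ x y y'' rfl (by rw [hg, hy''])
    have h3 := hY (g y' z) _ x y' y'' rfl (by rw [hg, ← h1, hy''])
    rw [← h1] at h3
    have h4 : g y z = g y' z := h2.symm.trans h3
    have h5 : R (g y z) y = R (g y z) y' := by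
      rw [hg, h4, hg]
    exact hR1 _ h5
  · intro x y z
    exact ⟨g y z, hg y z, rfl⟩

/-- A switchable Latin square. -/
structure Base (V : Type*) [Fintype V] [DecidableEq V] (B : ℕ) where
  R : V → V → V
  z0 : V
  Z : Finset V
  C : V → Finset V
  Pt : V → V → Prop
  blk : V → V → V → Finset V
  R_inj : ∀ c, Function.Injective (R c)
  R_inj' : ∀ x, Function.Injective (fun c => R c x)
  z0_C : ∀ c, z0 ∈ C c
  Z_card : Z.card ≤ B
  Pt_ne : ∀ c c', Pt c c' → c ≠ c'
  mem_blk : ∀ c c' x, x ∈ blk c c' x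
  blk_eq : ∀ c c' x y, y ∈ blk c c' x → blk c c' y = blk c c' x
  blk_R : ∀ c c' x y, Pt c c' → R c x = R c' y → y ∈ blk c c' x
  C_blk : ∀ c c' x, Pt c c' → x ∈ C c → x ∈ blk c c' z0
  C_blk' : ∀ c c' x, Pt c c' → x ∈ C c' → x ∈ blk c c' z0
  blk_card : ∀ c c' x, Pt c c' → (blk c c' x).card ≤ B
  C_card : ∀ c, (C c).card ≤ B
  K1 : ∀ c x z, x ≠ z →
    {c' | Pt c c' ∧ z0 ∉ blk c c' x ∧ z ∈ blk c c' x}.ncard ≤ B
  K2 : ∀ c' x z, x ≠ z →
    {c | Pt c c' ∧ z0 ∉ blk c c' x ∧ z ∈ blk c c' x}.ncard ≤ B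
  K3 : ∀ c z, z ∉ C c → {c' | Pt c c' ∧ z ∈ blk c c' z0}.ncard ≤ B
  K4 : ∀ x, x ∉ Z → {c | x ∈ C c}.ncard ≤ B
  K6 : ∀ c, Fintype.card V ≤ 2 * {c' | Pt c c'}.ncard

namespace Base

variable {V : Type*} [Fintype V] [DecidableEq V] {B : ℕ} (b : Base V B)

/-- canonical representative of the cluster of `x` at the colour `c` -/
def rep (c x : V) : V := if x ∈ b.C c then b.z0 else x

/-- `c'` is usable for `x` -/
def ok (c c' x : V) : Prop := x ∈ b.C c ∨ b.z0 ∉ b.blk c c' x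

/-- the quadruple -/
def tp (d1 d2 x y : V) : Fin 4 → V := ![x, y, b.R d1 y, b.R d2 x]

@[simp] theorem tp_0 (d1 d2 x y : V) : b.tp d1 d2 x y 0 = x := rfl
@[simp] theorem tp_1 (d1 d2 x y : V) : b.tp d1 d2 x y 1 = y := rfl
@[simp] theorem tp_2 (d1 d2 x y : V) : b.tp d1 d2 x y 2 = b.R d1 y := rfl
@[simp] theorem tp_3 (d1 d2 x y : V) : b.tp d1 d2 x y 3 = b.R d2 x := rfl

include b in
theorem B_pos : 0 < B := by
  have h1 := b.C_card b.z0
  have h2 : 0 < (b.C b.z0).card := Finset.card_pos.2 ⟨_, b.z0_C _⟩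
  omega

theorem rep_rep (c x : V) : b.rep c (b.rep c x) = b.rep c x := by
  unfold rep
  by_cases h : x ∈ b.C c
  · rw [if_pos h, if_pos (b.z0_C c)]
  · rw [if_neg h, if_neg h]

theorem rep_mem {c x : V} (h : x ∈ b.C c) : b.rep c x = b.z0 := if_pos h

theorem rep_notMem {c x : V} (h : x ∉ b.C c) : b.rep c x = x := if_neg h

/-- same cluster: both in `C c`, or equal -/
theorem rep_eq {c x y : V} (h : b.rep c x = b.rep c y) :
    (x ∈ b.C c ∧ y ∈ b.C c) ∨ (x ∉ b.C c ∧ y = x) := by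
  by_cases hx : x ∈ b.C c
  · by_cases hy : y ∈ b.C c
    · exact Or.inl ⟨hx, hy⟩
    · rw [b.rep_mem hx, b.rep_notMem hy] at h
      exact absurd (h ▸ b.z0_C c) hy
  · by_cases hy : y ∈ b.C c
    · rw [b.rep_mem hy, b.rep_notMem hx] at h
      exact absurd (h ▸ b.z0_C c) hx
    · rw [b.rep_notMem hy, b.rep_notMem hx] at h
      exact Or.inr ⟨hx, h.symm⟩

theorem blk_symm {c c' x y : V} (h : y ∈ b.blk c c' x) : x ∈ b.blk c c' y := by
  rw [b.blk_eq _ _ _ _ h]
  exact b.mem_blk _ _ _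

/-- clusters lie in blocks -/
theorem clu_blk {c c' d x y : V} (hP : b.Pt c c') (hd : d = c ∨ d = c')
    (h : b.rep d x = b.rep d y) : y ∈ b.blk c c' x := by
  rcases b.rep_eq h with ⟨hx, hy⟩ | ⟨_, rfl⟩
  · rcases hd with rfl | rfl
    · have h1 := b.C_blk _ _ _ hP hx
      have h2 := b.C_blk _ _ _ hP hy
      rw [b.blk_eq _ _ _ _ h1]
      exact h2
    · have h1 := b.C_blk' _ _ _ hP hx
      have h2 := b.C_blk' _ _ _ hP hy
      rw [b.blk_eq _ _ _ _ h1]
      exact h2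
  · exact b.mem_blk _ _ _

theorem ok_of_rep {c c' x x1 : V} (h : b.rep c x1 = x) (hok : b.ok c c' x) : b.ok c c' x1 := by
  by_cases hx : x1 ∈ b.C c
  · exact Or.inl hx
  · rw [b.rep_notMem hx] at h
    rwa [h]

/-- spread, second colour varying -/
theorem spread1 (c x v : V) (h : b.rep c v ≠ b.rep c x) :
    {c' | b.Pt c c' ∧ b.ok c c' x ∧ v ∈ b.blk c c' x}.ncard ≤ B := by
  by_cases hx : x ∈ b.C c
  · have hv : v ∉ b.C c := by
      intro hv
      rw [b.rep_mem hx, b.rep_mem hv] at h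
      exact h rfl
    refine le_trans (Set.ncard_le_ncard ?_ (Set.toFinite _)) (b.K3 c v hv)
    rintro c' ⟨h1, _, h3⟩
    refine ⟨h1, ?_⟩
    rw [← b.blk_eq _ _ _ _ (b.C_blk _ _ _ h1 hx)]
    exact h3
  · have hne : x ≠ v := fun e => h (by rw [e])
    refine le_trans (Set.ncard_le_ncard ?_ (Set.toFinite _)) (b.K1 c x v hne)
    rintro c' ⟨h1, h2, h3⟩
    exact ⟨h1, h2.resolve_left hx, h3⟩

/-- spread, first colour varying -/
theorem spread2 (c' x v : V) (h : x ∉ b.Z) (hne : x ≠ v) :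
    {c | b.Pt c c' ∧ b.ok c c' x ∧ v ∈ b.blk c c' x}.ncard ≤ 2 * B := by
  refine le_trans (Set.ncard_le_ncard (t := {c | x ∈ b.C c} ∪
    {c | b.Pt c c' ∧ b.z0 ∉ b.blk c c' x ∧ v ∈ b.blk c c' x}) ?_ (Set.toFinite _)) ?_
  · rintro c ⟨h1, h2, h3⟩
    rcases h2 with h2 | h2
    · exact Or.inl h2
    · exact Or.inr ⟨h1, h2, h3⟩
  · refine (Set.ncard_union_le _ _).trans ?_
    have h1 := b.K4 x h
    have h2 := b.K2 c' x v hne
    omega

/-- number of colours taking a value on a small set -/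
theorem spread3 (A : Finset V) (v : V) :
    {c | ∃ x ∈ A, b.R c x = v}.ncard ≤ A.card := by
  have h1 : {c | ∃ x ∈ A, b.R c x = v} = ⋃ x ∈ A, {c | b.R c x = v} := by
    ext c
    simp
  rw [h1]
  refine (Finset.set_ncard_biUnion_le A _).trans ?_
  calc ∑ x ∈ A, {c | b.R c x = v}.ncard ≤ ∑ x ∈ A, 1 := by
        apply Finset.sum_le_sum
        intro x _
        rw [Set.ncard_le_one (Set.toFinite _)]
        intro c hc d hd
        exact b.R_inj' x (hc.trans hd.symm)
    _ = A.card := by simp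

end Base

end Pool.Agent.Lib.MP_7580b0_co
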