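import Pool.Agent.Lib.MP_7580b0_co.Cube

/-!
# Choosing a good isotopy
-/

namespace Pool.Agent.Lib.MP_7580b0_co

open Finset

section

variable {V V' : Type*} [Fintype V] [DecidableEq V] [Fintype V'] [DecidableEq V']

/-- union bound -/
theorem exists_good {ι α : Type*} [Fintype ι] [Fintype α] (F : (Fin 4 → V') → Prop) (k : ℕ)
    (hF : ∀ (i : Fin 4) (v : Fin 4 → V'), {s | F (Function.update v i s)}.ncard ≤ k)
    (J : α → Set ι) (E : α → ι → Finset (Fin 4 → V)) (co : α → Fin 4) (D s K : ℕ) (hD : 0 < D)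
    (hs : ∀ a, ∀ j ∈ J a, (E a j).card ≤ s)
    (hmul : ∀ a v, {j | j ∈ J a ∧ ∃ t ∈ E a j, t (co a) = v}.ncard ≤ D)
    (hcard : Fintype.card V = Fintype.card V')
    (hsmall : Fintype.card α * (D * s * k) ^ K < K.factorial) :
    ∃ π : Fin 4 → (V ≃ V'), ∀ a,
      {j | j ∈ J a ∧ ∃ t ∈ E a j, F (fun l => π l (t l))}.ncard < D * K := by
  classical
  have hpos : 0 < Fintype.card (V ≃ V') := by
    rw [Fintype.card_pos_iff]
    exact ⟨Fintype.equivOfCardEq hcard⟩
  have hF' : ∀ (i : Fin 4) (v : Fin 4 → V'),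
      (univ.filter (fun s => F (Function.update v i s))).card ≤ k := by
    intro i v
    have := hF i v
    rw [Set.ncard_eq_toFinset_card' ] at this
    simpa using this
  by_contra hcon
  push Not at hcon
  let N := Fintype.card (Fin 4 → (V ≃ V'))
  have hN : 0 < N := Fintype.card_pos_iff.2 ⟨fun _ => Fintype.equivOfCardEq hcard⟩
  have h1 : N * K.factorial ≤ Fintype.card α * ((D * s * k) ^ K * N) := by
    have h2 : (univ : Finset (Fin 4 → (V ≃ V'))) ⊆ univ.biUnion (fun a =>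
        univ.filter (fun π : Fin 4 → (V ≃ V') => D * K ≤ ((univ.filter (fun j => j ∈ J a)).filter
          (fun j => ∃ t ∈ E a j, F (fun l => π l (t l)))).card)) := by
      intro π _
      obtain ⟨a, ha⟩ := hcon π
      simp only [mem_biUnion, mem_filter, mem_univ, true_and]
      refine ⟨a, ?_⟩
      rw [Set.ncard_eq_toFinset_card'] at ha
      refine ha.trans (Finset.card_le_card ?_)
      intro j hj
      simpa using hj
    calc N * K.factorial = (univ : Finset (Fin 4 → (V ≃ V'))).card * K.factorial := by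
          rw [Finset.card_univ]
      _ ≤ (∑ a : α, (univ.filter (fun π : Fin 4 → (V ≃ V') => D * K ≤
          ((univ.filter (fun j => j ∈ J a)).filter
          (fun j => ∃ t ∈ E a j, F (fun l => π l (t l)))).card)).card) * K.factorial :=
          Nat.mul_le_mul_right _ ((Finset.card_le_card h2).trans Finset.card_biUnion_le)
      _ = ∑ a : α, (univ.filter (fun π : Fin 4 → (V ≃ V') => D * K ≤
          ((univ.filter (fun j => j ∈ J a)).filter
          (fun j => ∃ t ∈ E a j, F (fun l => π l (t l)))).card)).card * K.factorial := by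
          rw [Finset.sum_mul]
      _ ≤ ∑ a : α, (D * s * k) ^ K * N := by
          apply Finset.sum_le_sum
          intro a _
          apply event_bound F k hF' (univ.filter (fun j => j ∈ J a)) (E a) (co a) D s K hD
            _ _ hpos
          · intro j hj
            exact hs a j (by simpa using hj)
          · intro v
            have := hmul a v
            rw [Set.ncard_eq_toFinset_card'] at this
            refine le_trans (Finset.card_le_card ?_) this
            intro j hj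
            simpa using hj
      _ = _ := by
          rw [Finset.sum_const, Finset.card_univ, smul_eq_mul]
  have h3 : N * K.factorial ≤ N * (Fintype.card α * (D * s * k) ^ K) := by
    calc _ ≤ _ := h1
      _ = _ := by ring
  have h4 := Nat.le_of_mul_le_mul_left h3 hN
  omega

end

namespace Base

open Classical

variable {V : Type*} [Fintype V] [DecidableEq V] {B : ℕ} (b : Base V B)

/-- conditions of the four families of the first kind -/
def cnd (c x y c' : V) (i : Fin 4) (q : (V × V) × (V × V)) : Prop :=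
  match i with
  | 0 => b.rep c q.1.1 ≠ b.rep c x
  | 1 => b.rep c q.1.2 ≠ b.rep c y
  | 2 => q.2.1 = c' ∧ b.rep c q.1.2 = b.rep c y
  | 3 => q.2.2 = c' ∧ b.rep c q.1.1 = b.rep c x

/-- quadruples of the first kind -/
noncomputable def F12 (c x y : V) (i : Fin 4) (c' : V) : Finset (Fin 4 → V) :=
  (((b.blk c c' x ×ˢ b.blk c c' y) ×ˢ (({c, c'} : Finset V) ×ˢ ({c, c'} : Finset V))).filter
    (fun q => b.cnd c x y c' i q)).image (fun q => b.tp q.2.1 q.2.2 q.1.1 q.1.2)

/-- conditions of the two families of the second kind -/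
def cnda (c x y : V) (i : Fin 2) (q : V × V) : Prop :=
  match i with
  | 0 => b.rep c q.1 ≠ b.rep c x
  | 1 => b.rep c q.2 ≠ b.rep c y

/-- quadruples of the second kind -/
noncomputable def F3a (c x y : V) (i : Fin 2) (c' : V) : Finset (Fin 4 → V) :=
  ((b.blk c c' x ×ˢ b.blk c c' y).filter
    (fun q => b.ok c c' q.1 ∧ b.ok c c' q.2 ∧ b.cnda c x y i q)).image
      (fun q => b.tp c c q.1 q.2)

/-- conditions of the two families of the third kind -/
def cndb (x : V) (i : Fin 2) (q : V × V) : Prop :=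
  match i with
  | 0 => q.1 ∉ b.Z ∧ q.1 ≠ x
  | 1 => q.1 ∈ b.Z ∨ q.1 = x

/-- quadruples of the third kind -/
noncomputable def F3b (c x y : V) (i : Fin 2) (c0 : V) : Finset (Fin 4 → V) :=
  ((b.blk c0 c x ×ˢ b.blk c0 c y).filter
    (fun q => b.ok c0 c q.1 ∧ b.ok c0 c q.2 ∧ b.cndb x i q)).image
      (fun q => b.tp c0 c0 q.1 q.2)

theorem card_F12 {c x y : V} {i : Fin 4} {c' : V} (hP : b.Pt c c') :
    (b.F12 c x y i c').card ≤ 4 * B ^ 2 := by
  unfold F12
  refine Finset.card_image_le.trans ((Finset.card_filter_le _ _).trans ?_)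
  rw [Finset.card_product, Finset.card_product, Finset.card_product]
  have h1 := b.blk_card c c' x hP
  have h2 := b.blk_card c c' y hP
  have h3 : ({c, c'} : Finset V).card ≤ 2 := Finset.card_le_two
  calc _ ≤ (B * B) * (2 * 2) := by gcongr
    _ = 4 * B ^ 2 := by ring

theorem card_F3a {c x y : V} {i : Fin 2} {c' : V} (hP : b.Pt c c') :
    (b.F3a c x y i c').card ≤ 4 * B ^ 2 := by
  unfold F3a
  refine Finset.card_image_le.trans ((Finset.card_filter_le _ _).trans ?_)
  rw [Finset.card_product]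
  have h1 := b.blk_card c c' x hP
  have h2 := b.blk_card c c' y hP
  calc _ ≤ (B * B) := by gcongr
    _ ≤ 4 * B ^ 2 := by nlinarith [sq_nonneg B]

theorem card_F3b {c x y : V} {i : Fin 2} {c0 : V} (hP : b.Pt c0 c) :
    (b.F3b c x y i c0).card ≤ 4 * B ^ 2 := by
  unfold F3b
  refine Finset.card_image_le.trans ((Finset.card_filter_le _ _).trans ?_)
  rw [Finset.card_product]
  have h1 := b.blk_card c0 c x hP
  have h2 := b.blk_card c0 c y hP
  calc _ ≤ (B * B) := by gcongr
    _ ≤ 4 * B ^ 2 := by nlinarith [sq_nonneg B]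

theorem mem_F12 {c x y c' : V} {i : Fin 4} {t : Fin 4 → V} (ht : t ∈ b.F12 c x y i c') :
    ∃ x' y' d1 d2, x' ∈ b.blk c c' x ∧ y' ∈ b.blk c c' y ∧ b.cnd c x y c' i ((x', y'), (d1, d2)) ∧
      b.tp d1 d2 x' y' = t := by
  simp only [F12, mem_image, mem_filter, mem_product] at ht
  obtain ⟨q, ⟨⟨⟨hq1, hq2⟩, _⟩, hq3⟩, rfl⟩ := ht
  exact ⟨q.1.1, q.1.2, q.2.1, q.2.2, hq1, hq2, hq3, rfl⟩

theorem mem_F3a {c x y c' : V} {i : Fin 2} {t : Fin 4 → V} (ht : t ∈ b.F3a c x y i c') :
    ∃ x' y', x' ∈ b.blk c c' x ∧ y' ∈ b.blk c c' y ∧ b.ok c c' x' ∧ b.ok c c' y' ∧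
      b.cnda c x y i (x', y') ∧ b.tp c c x' y' = t := by
  simp only [F3a, mem_image, mem_filter, mem_product] at ht
  obtain ⟨q, ⟨⟨hq1, hq2⟩, hq3, hq4, hq5⟩, rfl⟩ := ht
  exact ⟨q.1, q.2, hq1, hq2, hq3, hq4, hq5, rfl⟩

theorem mem_F3b {c x y c0 : V} {i : Fin 2} {t : Fin 4 → V} (ht : t ∈ b.F3b c x y i c0) :
    ∃ x' y', x' ∈ b.blk c0 c x ∧ y' ∈ b.blk c0 c y ∧ b.ok c0 c x' ∧ b.ok c0 c y' ∧
      b.cndb x i (x', y') ∧ b.tp c0 c0 x' y' = t := by
  simp only [F3b, mem_image, mem_filter, mem_product] at ht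
  obtain ⟨q, ⟨⟨hq1, hq2⟩, hq3, hq4, hq5⟩, rfl⟩ := ht
  exact ⟨q.1, q.2, hq1, hq2, hq3, hq4, hq5, rfl⟩

theorem clu_card (c x : V) : (univ.filter (fun x' => b.rep c x' = b.rep c x)).card ≤ 2 * B := by
  have hB := b.B_pos
  have h1 : (univ.filter (fun x' => b.rep c x' = b.rep c x)) ⊆ b.C c ∪ {x} := by
    intro x' hx'
    simp only [mem_filter, mem_univ, true_and] at hx'
    rcases b.rep_eq hx' with ⟨h, _⟩ | ⟨_, h⟩
    · exact mem_union_left _ h
    · exact mem_union_right _ (mem_singleton.2 h.symm)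
  refine (Finset.card_le_card h1).trans ((Finset.card_union_le _ _).trans ?_)
  have := b.C_card c
  rw [Finset.card_singleton]
  omega

theorem mul_F12 (c x y : V) (i : Fin 4) (v : V) :
    {c' | (b.Pt c c' ∧ b.ok c c' x ∧ b.ok c c' y) ∧ ∃ t ∈ b.F12 c x y i c',
      t (![0, 1, 2, 3] i : Fin 4) = v}.ncard ≤ 2 * B := by
  have hB := b.B_pos
  match i with
  | 0 =>
    by_cases hv : b.rep c v = b.rep c x
    · have : {c' | (b.Pt c c' ∧ b.ok c c' x ∧ b.ok c c' y) ∧ ∃ t ∈ b.F12 c x y 0 c',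
          t (![0, 1, 2, 3] (0 : Fin 4) : Fin 4) = v} = ∅ := by
        rw [Set.eq_empty_iff_forall_notMem]
        rintro c' ⟨_, t, ht, htv⟩
        obtain ⟨x', y', d1, d2, hx', hy', hc, rfl⟩ := b.mem_F12 ht
        have htv' : x' = v := htv
        have hc' : b.rep c x' ≠ b.rep c x := hc
        exact hc' (htv' ▸ hv)
      rw [this]
      simp
    · refine le_trans (Set.ncard_le_ncard ?_ (Set.toFinite _))
        ((b.spread1 c x v hv).trans (by omega))
      rintro c' ⟨⟨h1, h2, h3⟩, t, ht, htv⟩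
      obtain ⟨x', y', d1, d2, hx', hy', hc, rfl⟩ := b.mem_F12 ht
      have htv' : x' = v := htv
      exact ⟨h1, h2, htv' ▸ hx'⟩
  | 1 =>
    by_cases hv : b.rep c v = b.rep c y
    · have : {c' | (b.Pt c c' ∧ b.ok c c' x ∧ b.ok c c' y) ∧ ∃ t ∈ b.F12 c x y 1 c',
          t (![0, 1, 2, 3] (1 : Fin 4) : Fin 4) = v} = ∅ := by
        rw [Set.eq_empty_iff_forall_notMem]
        rintro c' ⟨_, t, ht, htv⟩
        obtain ⟨x', y', d1, d2, hx', hy', hc, rfl⟩ := b.mem_F12 ht
        have htv' : y' = v := htv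
        have hc' : b.rep c y' ≠ b.rep c y := hc
        exact hc' (htv' ▸ hv)
      rw [this]
      simp
    · refine le_trans (Set.ncard_le_ncard ?_ (Set.toFinite _))
        ((b.spread1 c y v hv).trans (by omega))
      rintro c' ⟨⟨h1, h2, h3⟩, t, ht, htv⟩
      obtain ⟨x', y', d1, d2, hx', hy', hc, rfl⟩ := b.mem_F12 ht
      have htv' : y' = v := htv
      exact ⟨h1, h3, htv' ▸ hy'⟩
  | 2 =>
    refine le_trans (Set.ncard_le_ncard ?_ (Set.toFinite _))
      ((b.spread3 (univ.filter (fun x' => b.rep c x' = b.rep c y)) v).trans (b.clu_card c y))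
    rintro c' ⟨_, t, ht, htv⟩
    obtain ⟨x', y', d1, d2, hx', hy', hc, rfl⟩ := b.mem_F12 ht
    have htv' : b.R d1 y' = v := htv
    have hc' : d1 = c' ∧ b.rep c y' = b.rep c y := hc
    refine ⟨y', ?_, ?_⟩
    · simpa using hc'.2
    · rw [← hc'.1]; exact htv'
  | 3 =>
    refine le_trans (Set.ncard_le_ncard ?_ (Set.toFinite _))
      ((b.spread3 (univ.filter (fun x' => b.rep c x' = b.rep c x)) v).trans (b.clu_card c x))
    rintro c' ⟨_, t, ht, htv⟩
    obtain ⟨x', y', d1, d2, hx', hy', hc, rfl⟩ := b.mem_F12 ht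
    have htv' : b.R d2 x' = v := htv
    have hc' : d2 = c' ∧ b.rep c x' = b.rep c x := hc
    refine ⟨x', ?_, ?_⟩
    · simpa using hc'.2
    · rw [← hc'.1]; exact htv'

theorem mul_F3a (c x y : V) (i : Fin 2) (v : V) :
    {c' | b.Pt c c' ∧ ∃ t ∈ b.F3a c x y i c', t (![0, 1] i : Fin 4) = v}.ncard ≤ 2 * B := by
  have hB := b.B_pos
  match i with
  | 0 =>
    by_cases hv : b.rep c v = b.rep c x
    · have : {c' | b.Pt c c' ∧ ∃ t ∈ b.F3a c x y 0 c',
          t (![0, 1] (0 : Fin 2) : Fin 4) = v} = ∅ := by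
        rw [Set.eq_empty_iff_forall_notMem]
        rintro c' ⟨_, t, ht, htv⟩
        obtain ⟨x', y', hx', hy', _, _, hc, rfl⟩ := b.mem_F3a ht
        have htv' : x' = v := htv
        have hc' : b.rep c x' ≠ b.rep c x := hc
        exact hc' (htv' ▸ hv)
      rw [this]
      simp
    · refine le_trans (Set.ncard_le_ncard ?_ (Set.toFinite _))
        ((b.spread1 c v x (Ne.symm hv)).trans (by omega))
      rintro c' ⟨h1, t, ht, htv⟩
      obtain ⟨x', y', hx', hy', h2, h3, hc, rfl⟩ := b.mem_F3a ht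
      have htv' : x' = v := htv
      exact ⟨h1, htv' ▸ h2, htv' ▸ b.blk_symm hx'⟩
  | 1 =>
    by_cases hv : b.rep c v = b.rep c y
    · have : {c' | b.Pt c c' ∧ ∃ t ∈ b.F3a c x y 1 c',
          t (![0, 1] (1 : Fin 2) : Fin 4) = v} = ∅ := by
        rw [Set.eq_empty_iff_forall_notMem]
        rintro c' ⟨_, t, ht, htv⟩
        obtain ⟨x', y', hx', hy', _, _, hc, rfl⟩ := b.mem_F3a ht
        have htv' : y' = v := htv
        have hc' : b.rep c y' ≠ b.rep c y := hc
        exact hc' (htv' ▸ hv)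
      rw [this]
      simp
    · refine le_trans (Set.ncard_le_ncard ?_ (Set.toFinite _))
        ((b.spread1 c v y (Ne.symm hv)).trans (by omega))
      rintro c' ⟨h1, t, ht, htv⟩
      obtain ⟨x', y', hx', hy', h2, h3, hc, rfl⟩ := b.mem_F3a ht
      have htv' : y' = v := htv
      exact ⟨h1, htv' ▸ h3, htv' ▸ b.blk_symm hy'⟩

theorem mul_F3b (c x y : V) (i : Fin 2) (v : V) :
    {c0 | b.Pt c0 c ∧ ∃ t ∈ b.F3b c x y i c0, t (![0, 3] i : Fin 4) = v}.ncard ≤ 2 * B := by
  have hB := b.B_pos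
  match i with
  | 0 =>
    by_cases hv : v ∉ b.Z ∧ v ≠ x
    · refine le_trans (Set.ncard_le_ncard ?_ (Set.toFinite _)) (b.spread2 c v x hv.1 hv.2)
      rintro c' ⟨h1, t, ht, htv⟩
      obtain ⟨x', y', hx', hy', h2, h3, hc, rfl⟩ := b.mem_F3b ht
      have htv' : x' = v := htv
      exact ⟨h1, htv' ▸ h2, htv' ▸ b.blk_symm hx'⟩
    · have : {c0 | b.Pt c0 c ∧ ∃ t ∈ b.F3b c x y 0 c0,
          t (![0, 3] (0 : Fin 2) : Fin 4) = v} = ∅ := by
        rw [Set.eq_empty_iff_forall_notMem]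
        rintro c' ⟨_, t, ht, htv⟩
        obtain ⟨x', y', hx', hy', _, _, hc, rfl⟩ := b.mem_F3b ht
        have htv' : x' = v := htv
        have hc' : x' ∉ b.Z ∧ x' ≠ x := hc
        exact hv (htv' ▸ hc')
      rw [this]
      simp
  | 1 =>
    have hcard : (b.Z ∪ {x}).card ≤ 2 * B := by
      refine (Finset.card_union_le _ _).trans ?_
      have := b.Z_card
      rw [Finset.card_singleton]
      omega
    refine le_trans (Set.ncard_le_ncard ?_ (Set.toFinite _))
      ((b.spread3 (b.Z ∪ {x}) v).trans hcard)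
    rintro c' ⟨_, t, ht, htv⟩
    obtain ⟨x', y', hx', hy', _, _, hc, rfl⟩ := b.mem_F3b ht
    have htv' : b.R c' x' = v := htv
    have hc' : x' ∈ b.Z ∨ x' = x := hc
    refine ⟨x', ?_, htv'⟩
    rcases hc' with h | h
    · exact Finset.mem_union_left _ h
    · exact Finset.mem_union_right _ (Finset.mem_singleton.2 h)

/-- a good isotopy exists -/
theorem exists_pi {V' : Type*} [Fintype V'] [DecidableEq V'] (F : (Fin 4 → V') → Prop) (k K : ℕ)
    (hF : ∀ (i : Fin 4) (v : Fin 4 → V'), {s | F (Function.update v i s)}.ncard ≤ k)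
    (hcard : Fintype.card V = Fintype.card V')
    (hsmall : 8 * Fintype.card V ^ 3 * (8 * B ^ 3 * k) ^ K < K.factorial) :
    ∃ π : Fin 4 → (V ≃ V'),
      (∀ c x y i, {c' | (b.Pt c c' ∧ b.ok c c' x ∧ b.ok c c' y) ∧
        ∃ t ∈ b.F12 c x y i c', F (fun l => π l (t l))}.ncard < 2 * B * K) ∧
      (∀ c x y i, {c' | b.Pt c c' ∧ ∃ t ∈ b.F3a c x y i c', F (fun l => π l (t l))}.ncard <
        2 * B * K) ∧
      (∀ c x y i, {c0 | b.Pt c0 c ∧ ∃ t ∈ b.F3b c x y i c0, F (fun l => π l (t l))}.ncard <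
        2 * B * K) := by
  have hB := b.B_pos
  obtain ⟨π, hπ⟩ := exists_good (V := V) (V' := V') (ι := V)
    (α := (V × V × V) × (Fin 4 ⊕ (Fin 2 ⊕ Fin 2))) F k hF
    (fun a => match a with
      | ((c, x, y), .inl _) => {c' | b.Pt c c' ∧ b.ok c c' x ∧ b.ok c c' y}
      | ((c, _, _), .inr (.inl _)) => {c' | b.Pt c c'}
      | ((c, _, _), .inr (.inr _)) => {c0 | b.Pt c0 c})
    (fun a => match a with
      | ((c, x, y), .inl i) => b.F12 c x y i
      | ((c, x, y), .inr (.inl i)) => b.F3a c x y i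
      | ((c, x, y), .inr (.inr i)) => b.F3b c x y i)
    (fun a => match a with
      | ((_, _, _), .inl i) => ![0, 1, 2, 3] i
      | ((_, _, _), .inr (.inl i)) => ![0, 1] i
      | ((_, _, _), .inr (.inr i)) => ![0, 3] i)
    (2 * B) (4 * B ^ 2) K (by omega)
    (by
      rintro ⟨⟨c, x, y⟩, i | i | i⟩ j hj
      · exact b.card_F12 hj.1
      · exact b.card_F3a hj
      · exact b.card_F3b hj)
    (by
      rintro ⟨⟨c, x, y⟩, i | i | i⟩ v
      · exact b.mul_F12 c x y i v
      · exact b.mul_F3a c x y i v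
      · exact b.mul_F3b c x y i v)
    hcard
    (by
      have h1 : Fintype.card ((V × V × V) × (Fin 4 ⊕ (Fin 2 ⊕ Fin 2))) =
          8 * Fintype.card V ^ 3 := by
        simp only [Fintype.card_prod, Fintype.card_sum, Fintype.card_fin]
        ring
      have h2 : 2 * B * (4 * B ^ 2) * k = 8 * B ^ 3 * k := by ring
      rw [h1, h2]
      exact hsmall)
  exact ⟨π, fun c x y i => hπ ((c, x, y), .inl i), fun c x y i => hπ ((c, x, y), .inr (.inl i)),
    fun c x y i => hπ ((c, x, y), .inr (.inr i))⟩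

end Base

end Pool.Agent.Lib.MP_7580b0_co
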