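import Pool.Agent.Lib.MP_7580b0_co.Concrete

/-!
# Labels of the blocks, and the concrete switchable Latin square
-/

namespace Pool.Agent.Lib.MP_7580b0_co

open Finset

namespace Conc

set_option linter.unusedSectionVars false

variable {m r : ℕ} [NeZero m] [NeZero r]

/-- label of a regular point for a pair of regular colours -/
def ell (a1 : ZMod m) (k1 : ZMod 3) (a2 : ZMod m) (k2 : ZMod 3) (b : ZMod m) (l : ZMod 3) :
    ZMod m :=
  if l = k1 then b - a1 else if l = k2 then b - a2 else b + a1 + a2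

theorem ell_symm {a1 : ZMod m} {k1 : ZMod 3} {a2 : ZMod m} {k2 : ZMod 3} (hk : k1 ≠ k2)
    (b : ZMod m) (l : ZMod 3) : ell a1 k1 a2 k2 b l = ell a2 k2 a1 k1 b l := by
  unfold ell
  by_cases h1 : l = k1
  · have h2 : l ≠ k2 := fun e => hk (h1.symm.trans e)
    rw [if_pos h1, if_neg h2, if_pos h1]
  · by_cases h2 : l = k2
    · rw [if_neg h1, if_pos h2, if_pos h2]
    · rw [if_neg h1, if_neg h2, if_neg h2, if_neg h1]
      ring

theorem ell_unique (hm : Odd m) {a1 a2 a3 a b : ZMod m} {k1 k2 k l : ZMod 3} (hk : k1 ≠ k2)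
    (hne : ¬ (a = b ∧ k = l)) (h1 : ell a1 k1 a2 k2 b l = ell a1 k1 a2 k2 a k)
    (h2 : ell a1 k1 a3 k2 b l = ell a1 k1 a3 k2 a k) : a2 = a3 := by
  unfold ell at h1 h2
  by_cases hl1 : l = k1
  · rw [if_pos hl1] at h1 h2
    by_cases hk1 : k = k1
    · rw [if_pos hk1] at h1 h2
      exact absurd ⟨(sub_left_injective h1).symm, hk1.trans hl1.symm⟩ hne
    · rw [if_neg hk1] at h1 h2
      by_cases hk2 : k = k2
      · rw [if_pos hk2] at h1 h2
        linear_combination h1 - h2
      · rw [if_neg hk2] at h1 h2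
        linear_combination h2 - h1
  · rw [if_neg hl1] at h1 h2
    by_cases hl2 : l = k2
    · rw [if_pos hl2] at h1 h2
      by_cases hk1 : k = k1
      · rw [if_pos hk1] at h1 h2
        linear_combination h2 - h1
      · rw [if_neg hk1] at h1 h2
        by_cases hk2 : k = k2
        · rw [if_pos hk2] at h1 h2
          exact absurd ⟨(sub_left_injective h1).symm, hk2.trans hl2.symm⟩ hne
        · rw [if_neg hk2] at h1 h2
          apply two_cancel hm
          linear_combination h2 - h1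
    · rw [if_neg hl2] at h1 h2
      by_cases hk1 : k = k1
      · rw [if_pos hk1] at h1 h2
        linear_combination h1 - h2
      · rw [if_neg hk1] at h1 h2
        by_cases hk2 : k = k2
        · rw [if_pos hk2] at h1 h2
          apply two_cancel hm
          linear_combination h1 - h2
        · rw [if_neg hk2] at h1 h2
          refine absurd ⟨?_, z3b k1 k2 k l ⟨hk, hk1, hk2, hl1, hl2⟩⟩ hne
          linear_combination -h1

theorem ell_inj {a1 a2 b b' : ZMod m} {k1 k2 l : ZMod 3}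
    (h : ell a1 k1 a2 k2 b l = ell a1 k1 a2 k2 b' l) : b = b' := by
  unfold ell at h
  split_ifs at h
  · linear_combination h
  · linear_combination h
  · linear_combination h

open Classical in
/-- labels -/
noncomputable def lab (m r : ℕ) :
    VV m r → VV m r → VV m r → Option (ZMod m ⊕ Sym2 (ZMod m × ZMod 3))
  | .inl (a1, k1), .inl (a2, k2), .inl (b, l) =>
    if ∃ i : ZMod r, tau m i = -(ell a1 k1 a2 k2 b l) then none
      else some (.inl (ell a1 k1 a2 k2 b l))
  | .inr i, .inl (a2, k2), .inl (b, l) =>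
    if l = k2 then
      (if (∃ j : ZMod r, tau m j = a2 - b) ∨ (∃ j : ZMod r, tau m j = b + 2 * tau m i - a2) then
        none else some (.inr s((b, l), (2 * a2 - 2 * tau m i - b, l))))
    else some (.inr s((b, l), (-a2 - 2 * tau m i - b, -k2 - l)))
  | _, _, _ => none

theorem lab_inr (c c' : VV m r) (i : ZMod r) : lab m r c c' (.inr i) = none := by
  rcases c with ⟨a1, k1⟩ | c <;> rcases c' with ⟨a2, k2⟩ | c' <;> rfl

theorem lab_ll {a1 a2 b : ZMod m} {k1 k2 l : ZMod 3} :
    ((∃ i : ZMod r, tau m i = -(ell a1 k1 a2 k2 b l)) ∧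
      lab m r (.inl (a1, k1)) (.inl (a2, k2)) (.inl (b, l)) = none) ∨
    ((¬ ∃ i : ZMod r, tau m i = -(ell a1 k1 a2 k2 b l)) ∧
      lab m r (.inl (a1, k1)) (.inl (a2, k2)) (.inl (b, l)) =
        some (.inl (ell a1 k1 a2 k2 b l))) := by
  by_cases h : ∃ i : ZMod r, tau m i = -(ell a1 k1 a2 k2 b l)
  · left
    exact ⟨h, by simp only [lab, if_pos h]⟩
  · right
    exact ⟨h, by simp only [lab, if_neg h]⟩

theorem lab_ll_none {a1 a2 b : ZMod m} {k1 k2 l : ZMod 3} :
    lab m r (.inl (a1, k1)) (.inl (a2, k2)) (.inl (b, l)) = none ↔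
      ∃ i : ZMod r, tau m i = -(ell a1 k1 a2 k2 b l) := by
  rcases lab_ll (r := r) (a1 := a1) (a2 := a2) (b := b) (k1 := k1) (k2 := k2) (l := l) with
    ⟨h1, h2⟩ | ⟨h1, h2⟩
  · exact ⟨fun _ => h1, fun _ => h2⟩
  · rw [h2]
    constructor
    · intro h; exact absurd h (by simp)
    · intro h; exact absurd h h1

theorem lab_ll_of_ell {a1 a2 b a : ZMod m} {k1 k2 l k : ZMod 3}
    (h : ell a1 k1 a2 k2 b l = ell a1 k1 a2 k2 a k) :
    lab m r (.inl (a1, k1)) (.inl (a2, k2)) (.inl (b, l)) =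
      lab m r (.inl (a1, k1)) (.inl (a2, k2)) (.inl (a, k)) := by
  rcases lab_ll (r := r) (a1 := a1) (a2 := a2) (b := b) (k1 := k1) (k2 := k2) (l := l) with
    ⟨h1, h2⟩ | ⟨h1, h2⟩
  · rw [h2, eq_comm, lab_ll_none, ← h]
    exact h1
  · rcases lab_ll (r := r) (a1 := a1) (a2 := a2) (b := a) (k1 := k1) (k2 := k2) (l := k) with
      ⟨g1, g2⟩ | ⟨g1, g2⟩
    · rw [← h] at g1
      exact absurd g1 h1
    · rw [h2, g2, h]

theorem ell_of_lab {a1 a2 b a : ZMod m} {k1 k2 l k : ZMod 3}
    (h0 : lab m r (.inl (a1, k1)) (.inl (a2, k2)) (.inl (a, k)) ≠ none)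
    (h : lab m r (.inl (a1, k1)) (.inl (a2, k2)) (.inl (b, l)) =
      lab m r (.inl (a1, k1)) (.inl (a2, k2)) (.inl (a, k))) :
    ell a1 k1 a2 k2 b l = ell a1 k1 a2 k2 a k := by
  rcases lab_ll (r := r) (a1 := a1) (a2 := a2) (b := b) (k1 := k1) (k2 := k2) (l := l) with
    ⟨h1, h2⟩ | ⟨h1, h2⟩
  · exact absurd (h.symm.trans h2) h0
  · rcases lab_ll (r := r) (a1 := a1) (a2 := a2) (b := a) (k1 := k1) (k2 := k2) (l := k) with
      ⟨g1, g2⟩ | ⟨g1, g2⟩
    · exact absurd g2 h0
    · rw [h2, g2] at h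
      simpa using h

theorem lab_il {a2 b : ZMod m} {k2 l : ZMod 3} {i : ZMod r} :
    (l = k2 ∧ ((∃ j : ZMod r, tau m j = a2 - b) ∨ (∃ j : ZMod r, tau m j = b + 2 * tau m i - a2)) ∧
      lab m r (.inr i) (.inl (a2, k2)) (.inl (b, l)) = none) ∨
    (l = k2 ∧ (¬ ((∃ j : ZMod r, tau m j = a2 - b) ∨
        (∃ j : ZMod r, tau m j = b + 2 * tau m i - a2))) ∧
      lab m r (.inr i) (.inl (a2, k2)) (.inl (b, l)) =
        some (.inr s((b, l), (2 * a2 - 2 * tau m i - b, l)))) ∨
    (l ≠ k2 ∧ lab m r (.inr i) (.inl (a2, k2)) (.inl (b, l)) =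
        some (.inr s((b, l), (-a2 - 2 * tau m i - b, -k2 - l)))) := by
  by_cases hl : l = k2
  · by_cases h : (∃ j : ZMod r, tau m j = a2 - b) ∨ (∃ j : ZMod r, tau m j = b + 2 * tau m i - a2)
    · left
      exact ⟨hl, h, by simp only [lab, if_pos hl, if_pos h]⟩
    · right; left
      exact ⟨hl, h, by simp only [lab, if_pos hl, if_neg h]⟩
  · right; right
    exact ⟨hl, by simp only [lab, if_neg hl]⟩

/-- partners -/
def PP (m r : ℕ) : VV m r → VV m r → Prop
  | .inl (_, k1), .inl (_, k2) => k1 ≠ k2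
  | .inr _, .inl _ => True
  | _, .inr _ => False

/-- blocks are respected by the square -/
theorem lab_R (c c' x y : VV m r) (hP : PP m r c c')
    (h : RR m r c x = RR m r c' y) : lab m r c c' y = lab m r c c' x := by
  rcases c' with ⟨a2, k2⟩ | c'
  swap
  · rcases c with c | c <;> exact absurd hP id
  rcases c with ⟨a1, k1⟩ | i0
  · have hk : k1 ≠ k2 := hP
    rcases x with ⟨a, k⟩ | i <;> rcases y with ⟨b, l⟩ | j
    · rcases RR_cases (r := r) a1 a k1 k with ⟨hk1, i, hi, e1⟩ | ⟨hk1, hi, e1⟩ | ⟨hk1, e1⟩ <;>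
      rcases RR_cases (r := r) a2 b k2 l with ⟨hl, j, hj, e2⟩ | ⟨hl, hj, e2⟩ | ⟨hl, e2⟩ <;>
      rw [e1, e2] at h
      · rw [Sum.inr.injEq] at h
        subst h
        have h1 : lab m r (.inl (a1, k1)) (.inl (a2, k2)) (.inl (a, k)) = none := by
          rw [lab_ll_none]
          refine ⟨i, ?_⟩
          rw [hi, ell, if_pos hk1]
          ring
        have h2 : lab m r (.inl (a1, k1)) (.inl (a2, k2)) (.inl (b, l)) = none := by
          rw [lab_ll_none]
          refine ⟨i, ?_⟩
          rw [hj, ell, if_neg (by rw [hl]; exact hk.symm), if_pos hl]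
          ring
        rw [h1, h2]
      · exact absurd h (by simp)
      · exact absurd h (by simp)
      · exact absurd h (by simp)
      · rw [Sum.inl.injEq, Prod.mk.injEq] at h
        exact absurd h.2 hk
      · rw [Sum.inl.injEq, Prod.mk.injEq] at h
        have h3 := z3e k1 k2 l hk hl h.2.symm
        apply lab_ll_of_ell
        rw [ell, ell, if_neg h3.1, if_neg h3.2, if_pos hk1]
        linear_combination h.1
      · exact absurd h (by simp)
      · rw [Sum.inl.injEq, Prod.mk.injEq] at h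
        have h3 := z3e k2 k1 k hk.symm hk1 h.2
        apply lab_ll_of_ell
        rw [ell, ell, if_neg (by rw [hl]; exact hk.symm), if_pos hl, if_neg h3.2, if_neg h3.1]
        linear_combination h.1
      · rw [Sum.inl.injEq, Prod.mk.injEq] at h
        have h3 := z3a k1 k2 k l hk hk1 hl h.2
        apply lab_ll_of_ell
        rw [ell, ell, if_pos h3.2, if_neg hk1, if_pos h3.1]
        linear_combination h.1
    · rw [RR_li] at h
      rw [lab_inr]
      symm
      rw [lab_ll_none]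
      rcases RR_cases (r := r) a1 a k1 k with ⟨hk1, i, hi, e1⟩ | ⟨hk1, hi, e1⟩ | ⟨hk1, e1⟩ <;>
      rw [e1] at h
      · exact absurd h (by simp)
      · rw [Sum.inl.injEq, Prod.mk.injEq] at h
        exact absurd h.2 hk
      · rw [Sum.inl.injEq, Prod.mk.injEq] at h
        have h3 := z3e k2 k1 k hk.symm hk1 h.2
        refine ⟨j, ?_⟩
        rw [ell, if_neg h3.2, if_neg h3.1]
        linear_combination -h.1
    · rw [RR_li] at h
      rw [lab_inr, lab_ll_none]
      rcases RR_cases (r := r) a2 b k2 l with ⟨hl, j, hj, e2⟩ | ⟨hl, hj, e2⟩ | ⟨hl, e2⟩ <;>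
      rw [e2] at h
      · exact absurd h (by simp)
      · rw [Sum.inl.injEq, Prod.mk.injEq] at h
        exact absurd h.2 hk
      · rw [Sum.inl.injEq, Prod.mk.injEq] at h
        have h3 := z3e k1 k2 l hk hl h.2.symm
        refine ⟨i, ?_⟩
        rw [ell, if_neg h3.1, if_neg h3.2]
        linear_combination h.1
    · rw [lab_inr, lab_inr]
  · rcases x with ⟨a, k⟩ | i <;> rcases y with ⟨b, l⟩ | j
    · rw [RR_il] at h
      rcases RR_cases (r := r) a2 b k2 l with ⟨hl, j, hj, e2⟩ | ⟨hl, hj, e2⟩ | ⟨hl, e2⟩ <;>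
      rw [e2] at h
      · exact absurd h (by simp)
      · rw [Sum.inl.injEq, Prod.mk.injEq] at h
        obtain ⟨g1, g2⟩ := h
        have gb : b = 2 * a2 - 2 * tau m i0 - a := by linear_combination g1
        rcases lab_il (r := r) (a2 := a2) (b := a) (k2 := k2) (l := k) (i := i0) with
          ⟨q1, q2, q3⟩ | ⟨q1, q2, q3⟩ | ⟨q1, q3⟩ <;>
        rcases lab_il (r := r) (a2 := a2) (b := b) (k2 := k2) (l := l) (i := i0) with
          ⟨p1, p2, p3⟩ | ⟨p1, p2, p3⟩ | ⟨p1, p3⟩
        · rw [q3, p3]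
        · exfalso
          apply p2
          rcases q2 with ⟨j, hj'⟩ | ⟨j, hj'⟩
          · exact Or.inr ⟨j, by rw [hj', gb]; ring⟩
          · exact Or.inl ⟨j, by rw [hj', gb]; ring⟩
        · exact absurd hl p1
        · exfalso
          apply q2
          rcases p2 with ⟨j, hj'⟩ | ⟨j, hj'⟩
          · exact Or.inr ⟨j, by rw [hj', gb]; ring⟩
          · exact Or.inl ⟨j, by rw [hj', gb]; ring⟩
        · rw [q3, p3]
          congr 2
          rw [Sym2.eq_iff]
          right
          refine ⟨?_, ?_⟩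
          · rw [Prod.mk.injEq]
            exact ⟨gb, p1.trans q1.symm⟩
          · rw [Prod.mk.injEq]
            exact ⟨by rw [gb]; ring, p1.trans q1.symm⟩
        · exact absurd hl p1
        · exact absurd g2 q1
        · exact absurd g2 q1
        · exact absurd g2 q1
      · rw [Sum.inl.injEq, Prod.mk.injEq] at h
        obtain ⟨g1, g2⟩ := h
        have gb : b = -a2 - 2 * tau m i0 - a := by linear_combination g1
        have hkk : k ≠ k2 := by
          rw [g2]
          exact (z3c k2 l (Ne.symm hl)).1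
        rcases lab_il (r := r) (a2 := a2) (b := a) (k2 := k2) (l := k) (i := i0) with
          ⟨q1, q2, q3⟩ | ⟨q1, q2, q3⟩ | ⟨q1, q3⟩
        · exact absurd q1 hkk
        · exact absurd q1 hkk
        rcases lab_il (r := r) (a2 := a2) (b := b) (k2 := k2) (l := l) (i := i0) with
          ⟨p1, p2, p3⟩ | ⟨p1, p2, p3⟩ | ⟨p1, p3⟩
        · exact absurd p1 hl
        · exact absurd p1 hl
        rw [q3, p3]
        congr 2
        rw [Sym2.eq_iff]
        right
        refine ⟨?_, ?_⟩
        · rw [Prod.mk.injEq]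
          exact ⟨gb, by rw [g2]; ring⟩
        · rw [Prod.mk.injEq]
          exact ⟨by rw [gb]; ring, g2.symm⟩
    · rw [RR_il, RR_li, Sum.inl.injEq, Prod.mk.injEq] at h
      rw [lab_inr]
      rcases lab_il (r := r) (a2 := a2) (b := a) (k2 := k2) (l := k) (i := i0) with
          ⟨q1, q2, q3⟩ | ⟨q1, q2, q3⟩ | ⟨q1, q3⟩
      · exact q3.symm
      · exact absurd (Or.inr ⟨j, by linear_combination -h.1⟩) q2
      · exact absurd h.2 q1
    · rw [RR_ii] at h
      rw [lab_inr]
      rcases RR_cases (r := r) a2 b k2 l with ⟨hl, j, hj, e2⟩ | ⟨hl, hj, e2⟩ | ⟨hl, e2⟩ <;>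
      rw [e2] at h
      · rcases lab_il (r := r) (a2 := a2) (b := b) (k2 := k2) (l := l) (i := i0) with
          ⟨q1, q2, q3⟩ | ⟨q1, q2, q3⟩ | ⟨q1, q3⟩
        · exact q3
        · exact absurd (Or.inl ⟨j, hj⟩) q2
        · exact absurd hl q1
      · exact absurd h (by simp)
      · exact absurd h (by simp)
    · rw [lab_inr, lab_inr]

end Conc

end Pool.Agent.Lib.MP_7580b0_co
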