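import Pool.Agent.Lib.MP_7580b0_co.BaseInst

/-!
# Latin cubes avoiding sparse sets, for all large orders
-/

namespace Pool.Agent.Lib.MP_7580b0_co

open Finset

theorem pow_self_le (K : ℕ) : K ^ K ≤ 3 ^ K * K.factorial := by
  have h1 : ((K : ℝ)) ^ K / (K.factorial : ℝ) ≤ Real.exp K :=
    Real.pow_div_factorial_le_exp K (Nat.cast_nonneg K) K
  have h2 : Real.exp K ≤ 3 ^ K := by
    rw [← Real.exp_one_pow K]
    apply pow_le_pow_left₀ (Real.exp_pos 1).le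
    exact Real.exp_one_lt_three.le
  have h3 : (0 : ℝ) < K.factorial := by exact_mod_cast Nat.factorial_pos K
  have h4 : (K : ℝ) ^ K ≤ 3 ^ K * K.factorial := by
    rw [div_le_iff₀ h3] at h1
    exact h1.trans (mul_le_mul_of_nonneg_right h2 h3.le)
  exact_mod_cast h4

theorem growth (C : ℕ) : ∃ K0 : ℕ, ∀ K, K0 ≤ K → C * K ^ 3 < 33 ^ K := by
  have h := tendsto_pow_const_div_const_pow_of_one_lt 3 (r := (33 : ℝ)) (by norm_num)
  have h2 : ∀ᶠ K : ℕ in Filter.atTop, (K : ℝ) ^ 3 / 33 ^ K < 1 / ((C : ℝ) + 1) := by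
    apply h.eventually_lt_const
    positivity
  obtain ⟨K0, hK0⟩ := Filter.eventually_atTop.1 h2
  refine ⟨K0, fun K hK => ?_⟩
  have h3 := hK0 K hK
  have h4 : (0 : ℝ) < 33 ^ K := by positivity
  have h5 : (0 : ℝ) < (C : ℝ) + 1 := by positivity
  rw [div_lt_div_iff₀ h4 h5] at h3
  have h6 : (C : ℝ) * (K : ℝ) ^ 3 < 33 ^ K := by
    have : (0 : ℝ) ≤ (K : ℝ) ^ 3 := by positivity
    nlinarith
  exact_mod_cast h6

/-- the numerical condition -/
theorem small_cond (A c n k K : ℕ) (hK : 1 ≤ K) (hn : n < A * (K + 1))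
    (hk : k * (200 * A * c) ≤ n) (hg : 64 * A ^ 3 * K ^ 3 < 33 ^ K) :
    8 * n ^ 3 * (c * k) ^ K < K.factorial := by
  have h1 : n < 2 * A * K := by nlinarith
  have h2 : 100 * (c * k) ≤ K := by
    by_contra hcon
    push Not at hcon
    have : 2 * A * K ≤ n := by
      calc 2 * A * K ≤ 2 * A * (100 * (c * k)) := Nat.mul_le_mul_left _ hcon.le
        _ = k * (200 * A * c) := by ring
        _ ≤ n := hk
    omega
  have h3 : 100 ^ K * (c * k) ^ K ≤ 3 ^ K * K.factorial := by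
    rw [← mul_pow]
    exact (Nat.pow_le_pow_left h2 K).trans (pow_self_le K)
  have h4 : 8 * n ^ 3 ≤ 64 * A ^ 3 * K ^ 3 := by
    calc 8 * n ^ 3 ≤ 8 * (2 * A * K) ^ 3 := by gcongr
      _ = 64 * A ^ 3 * K ^ 3 := by ring
  have h5 : 8 * n ^ 3 * 3 ^ K < 100 ^ K := by
    calc 8 * n ^ 3 * 3 ^ K < 33 ^ K * 3 ^ K :=
          Nat.mul_lt_mul_of_pos_right (lt_of_le_of_lt h4 hg) (by positivity)
      _ = 99 ^ K := by rw [← mul_pow]; norm_num
      _ ≤ 100 ^ K := Nat.pow_le_pow_left (by norm_num) K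
  have h6 : 100 ^ K * (8 * n ^ 3 * (c * k) ^ K) < 100 ^ K * K.factorial := by
    calc 100 ^ K * (8 * n ^ 3 * (c * k) ^ K) = 8 * n ^ 3 * (100 ^ K * (c * k) ^ K) := by ring
      _ ≤ 8 * n ^ 3 * (3 ^ K * K.factorial) := Nat.mul_le_mul_left _ h3
      _ = (8 * n ^ 3 * 3 ^ K) * K.factorial := by ring
      _ < 100 ^ K * K.factorial := Nat.mul_lt_mul_of_pos_right h5 (Nat.factorial_pos K)
  exact Nat.lt_of_mul_lt_mul_left h6

/-- the order as `3 m + r` -/
theorem order_split (n : ℕ) (hn : 100 ≤ n) :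
    ∃ m r : ℕ, n = 3 * m + r ∧ Odd m ∧ 1 ≤ r ∧ r ≤ 6 ∧ r ≤ m := by
  refine ⟨2 * ((n - 4) / 6) + 1, n - 3 * (2 * ((n - 4) / 6) + 1), ?_, ?_, ?_, ?_, ?_⟩
  · omega
  · exact ⟨_, rfl⟩
  · omega
  · omega
  · omega

/-- **Latin cubes avoiding sparse sets**: for all large `n` and all sets `F` of quadruples with at
most `γ n` elements on every line there is a Latin cube of order `n` avoiding `F`. -/
theorem avoid : ∃ n0 D : ℕ, 1 ≤ D ∧ ∀ n k : ℕ, n0 ≤ n → k * D ≤ n →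
    ∀ F : (Fin 4 → Fin n) → Prop,
    (∀ (i : Fin 4) (v : Fin 4 → Fin n), {s | F (Function.update v i s)}.ncard ≤ k) →
    ∃ L : Fin n → Fin n → Fin n → Fin n, (∀ x y, Function.Injective (L x y)) ∧
      (∀ y z, Function.Injective (fun x => L x y z)) ∧
      (∀ x z, Function.Injective (fun y => L x y z)) ∧
      ∀ x y z, ¬ F ![x, y, z, L x y z] := by
  obtain ⟨K0, hK0⟩ := growth (64 * (150 * 24 ^ 5) ^ 3)
  refine ⟨(150 * 24 ^ 5) * (K0 + 1), 200 * (150 * 24 ^ 5) * (8 * 24 ^ 3), by norm_num, ?_⟩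
  intro n k hn hk F hF
  have hA : 0 < 150 * 24 ^ 5 := by norm_num
  have hn100 : 100 ≤ n := by
    have : 100 ≤ (150 * 24 ^ 5) * (K0 + 1) := by
      calc 100 ≤ 150 * 24 ^ 5 * 1 := by norm_num
        _ ≤ _ := Nat.mul_le_mul_left _ (by omega)
    omega
  obtain ⟨m, r, hnm, hm, hr1, hr6, hrm⟩ := order_split n hn100
  have : NeZero m := ⟨by omega⟩
  have : NeZero r := ⟨by omega⟩
  have hcard : Fintype.card (Conc.VV m r) = Fintype.card (Fin n) := by
    rw [Conc.card_VV, Fintype.card_fin, hnm]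
  have hKge : K0 + 1 ≤ n / (150 * 24 ^ 5) := by
    rw [Nat.le_div_iff_mul_le hA]
    rw [mul_comm]
    exact hn
  apply (Conc.base hm hr6 hrm).main F k (n / (150 * 24 ^ 5)) hF hcard (by omega)
  · rw [hcard, Fintype.card_fin]
    exact Nat.mul_div_le n _
  · rw [hcard, Fintype.card_fin]
    apply small_cond (150 * 24 ^ 5) (8 * 24 ^ 3) n k (n / (150 * 24 ^ 5)) (by omega)
    · exact Nat.lt_mul_div_succ n hA
    · exact hk
    · exact hK0 _ (by omega)

end Pool.Agent.Lib.MP_7580b0_co
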