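import Mathlib

/-!
# A selection lemma

If every class has at least `M > 0` options and every option is in conflict with at most `M / 4`
options of other classes, then there is a choice of one option per class without conflicts.
The proof counts the conflict-free choices.
-/

namespace Pool.Agent.Lib.MP_7580b0_co

open Finset

section Select

variable {ι Ω : Type*} [Fintype ι] [DecidableEq ι] [Fintype Ω] [DecidableEq Ω]

open Classical in
/-- conflict-free choice functions on `S`, equal to `w0` outside `S` -/
noncomputable def goodFns (O : ι → Finset Ω) (Cf : ι → Ω → ι → Ω → Prop) (w0 : Ω)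
    (S : Finset ι) : Finset (ι → Ω) :=
  univ.filter (fun f => (∀ i ∈ S, f i ∈ O i) ∧ (∀ i, i ∉ S → f i = w0) ∧
    ∀ i ∈ S, ∀ j ∈ S, i ≠ j → ¬ Cf i (f i) j (f j))

open Classical in
theorem select_step (O : ι → Finset Ω) (Cf : ι → Ω → ι → Ω → Prop)
    (hsym : ∀ i v j w, Cf i v j w → Cf j w i v) (w0 : Ω) (M : ℕ) (hM : 0 < M) (I : Finset ι)
    (hO : ∀ i ∈ I, M ≤ (O i).card)
    (hC : ∀ i ∈ I, ∀ v ∈ O i, 4 * (univ.filter (fun p : ι × Ω =>
      p.1 ∈ I ∧ p.1 ≠ i ∧ p.2 ∈ O p.1 ∧ Cf i v p.1 p.2)).card ≤ M) :
    ∀ (N : ℕ) (S : Finset ι), S.card = N → S ⊆ I → ∀ i ∈ I, i ∉ S →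
      M * (goodFns O Cf w0 S).card ≤ 2 * (goodFns O Cf w0 (insert i S)).card := by
  intro N
  induction N using Nat.strong_induction_on with
  | _ N ih =>
    intro S hSN hSI i hiI hiS
    set A := goodFns O Cf w0 S with hA
    set B := goodFns O Cf w0 (insert i S) with hB
    set P := A ×ˢ O i with hP
    set bad := P.filter (fun p => ∃ j ∈ S, Cf i p.2 j (p.1 j)) with hbad
    -- the good pairs inject into B
    have h1 : (P.filter (fun p => ¬ ∃ j ∈ S, Cf i p.2 j (p.1 j))).card ≤ B.card := by
      apply Finset.card_le_card_of_injOn (fun p => Function.update p.1 i p.2)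
      · rintro ⟨f, v⟩ hp
        simp only [hP, hA, goodFns, coe_filter, mem_product, mem_filter, mem_univ, true_and,
          Set.mem_ofPred_eq, not_exists, not_and] at hp
        obtain ⟨⟨⟨h1, h2, h3⟩, hv⟩, h4⟩ := hp
        simp only [hB, goodFns, mem_univ, true_and, coe_filter, Set.mem_ofPred_eq]
        refine ⟨?_, ?_, ?_⟩
        · intro j hj
          by_cases hji : j = i
          · subst hji; simpa using hv
          · rw [Function.update_of_ne hji]
            exact h1 j ((mem_insert.1 hj).resolve_left hji)
        · intro j hj
          have hji : j ≠ i := fun e => hj (e ▸ mem_insert_self _ _)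
          rw [Function.update_of_ne hji]
          exact h2 j (fun h => hj (mem_insert_of_mem h))
        · intro j hj l hl hjl
          by_cases hji : j = i
          · subst hji
            have hlj : l ≠ j := Ne.symm hjl
            rw [Function.update_self, Function.update_of_ne hlj]
            exact h4 l ((mem_insert.1 hl).resolve_left hlj)
          · rw [Function.update_of_ne hji]
            have hjS := (mem_insert.1 hj).resolve_left hji
            by_cases hli : l = i
            · subst hli
              rw [Function.update_self]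
              intro hcf
              exact h4 j hjS (hsym _ _ _ _ hcf)
            · rw [Function.update_of_ne hli]
              exact h3 j hjS l ((mem_insert.1 hl).resolve_left hli) hjl
      · rintro ⟨f, v⟩ hp ⟨g, w⟩ hq heq
        simp only [hP, hA, goodFns, coe_filter, mem_product, mem_filter, mem_univ, true_and,
          Set.mem_ofPred_eq, not_exists, not_and] at hp hq
        simp only at heq
        have hfi : f i = w0 := hp.1.1.2.1 i hiS
        have hgi : g i = w0 := hq.1.1.2.1 i hiS
        have hvw : v = w := by
          have := congrFun heq i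
          simpa using this
        have hfg : f = g := by
          funext j
          by_cases hji : j = i
          · rw [hji, hfi, hgi]
          · have := congrFun heq j
            rwa [Function.update_of_ne hji, Function.update_of_ne hji] at this
        rw [hvw, hfg]
    have h2 : P.card ≤ B.card + bad.card := by
      have e : bad.card + (P.filter (fun p => ¬ ∃ j ∈ S, Cf i p.2 j (p.1 j))).card = P.card := by
        rw [hbad]
        exact Finset.card_filter_add_card_filter_not _
      omega
    -- counting the bad pairs
    have h3 : ∀ j ∈ S, ∀ w, M * (A.filter (fun f => f j = w)).card ≤ 2 * A.card := by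
      intro j hj w
      have hjI := hSI hj
      have hle : (A.filter (fun f => f j = w)).card ≤ (goodFns O Cf w0 (S.erase j)).card := by
        apply Finset.card_le_card_of_injOn (fun f => Function.update f j w0)
        · intro f hf
          simp only [hA, goodFns, coe_filter, mem_filter, mem_univ, true_and,
            Set.mem_ofPred_eq] at hf
          obtain ⟨⟨g1, g2, g3⟩, g4⟩ := hf
          simp only [goodFns, mem_univ, true_and, coe_filter, Set.mem_ofPred_eq]
          refine ⟨?_, ?_, ?_⟩
          · intro l hl
            rw [Function.update_of_ne (Finset.ne_of_mem_erase hl)]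
            exact g1 l (Finset.mem_of_mem_erase hl)
          · intro l hl
            by_cases hlj : l = j
            · subst hlj; simp
            · rw [Function.update_of_ne hlj]
              exact g2 l (fun h => hl (mem_erase.2 ⟨hlj, h⟩))
          · intro l hl l' hl' hne
            rw [Function.update_of_ne (Finset.ne_of_mem_erase hl),
              Function.update_of_ne (Finset.ne_of_mem_erase hl')]
            exact g3 l (Finset.mem_of_mem_erase hl) l' (Finset.mem_of_mem_erase hl') hne
        · intro f hf g hg heq
          simp only [coe_filter, Set.mem_ofPred_eq] at hf hg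
          funext l
          by_cases hlj : l = j
          · rw [hlj, hf.2, hg.2]
          · have := congrFun heq l
            simp only at this
            rwa [Function.update_of_ne hlj, Function.update_of_ne hlj] at this
      have hlt : (S.erase j).card < N := by
        rw [← hSN]; exact Finset.card_erase_lt_of_mem hj
      have := ih _ hlt (S.erase j) rfl ((Finset.erase_subset _ _).trans hSI) j hjI
        (Finset.notMem_erase j S)
      rw [Finset.insert_erase hj] at this
      calc M * (A.filter (fun f => f j = w)).card ≤ M * (goodFns O Cf w0 (S.erase j)).card :=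
            Nat.mul_le_mul_left _ hle
        _ ≤ 2 * A.card := this
    have h4 : 2 * bad.card ≤ (O i).card * A.card := by
      have hsub : bad ⊆ (O i).biUnion (fun v => (univ.filter (fun p : ι × Ω =>
          p.1 ∈ I ∧ p.1 ≠ i ∧ p.2 ∈ O p.1 ∧ Cf i v p.1 p.2)).biUnion (fun q =>
            (A.filter (fun f => q.1 ∈ S ∧ f q.1 = q.2)).image (fun f => (f, v)))) := by
        rintro ⟨f, v⟩ hp
        simp only [hbad, hP, mem_filter, mem_product] at hp
        obtain ⟨⟨hf, hv⟩, j, hj, hcf⟩ := hp
        have hf' := hf
        simp only [hA, goodFns, mem_filter, mem_univ, true_and] at hf'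
        simp only [mem_biUnion, mem_filter, mem_univ, true_and, mem_image]
        refine ⟨v, hv, (j, f j), ⟨hSI hj, fun e => hiS (e ▸ hj), hf'.1 j hj, hcf⟩, f,
          ⟨hf, hj, rfl⟩, rfl⟩
      have hc1 : M * bad.card ≤ ∑ v ∈ O i, ∑ q ∈ (univ.filter (fun p : ι × Ω =>
          p.1 ∈ I ∧ p.1 ≠ i ∧ p.2 ∈ O p.1 ∧ Cf i v p.1 p.2)), 2 * A.card := by
        calc M * bad.card ≤ M * ∑ v ∈ O i, ∑ q ∈ (univ.filter (fun p : ι × Ω =>
              p.1 ∈ I ∧ p.1 ≠ i ∧ p.2 ∈ O p.1 ∧ Cf i v p.1 p.2)),
                (A.filter (fun f => q.1 ∈ S ∧ f q.1 = q.2)).card := by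
              apply Nat.mul_le_mul_left
              refine (Finset.card_le_card hsub).trans ?_
              refine Finset.card_biUnion_le.trans ?_
              apply Finset.sum_le_sum
              intro v hv
              refine Finset.card_biUnion_le.trans ?_
              apply Finset.sum_le_sum
              intro q hq
              exact Finset.card_image_le
          _ ≤ _ := by
              rw [Finset.mul_sum]
              apply Finset.sum_le_sum
              intro v hv
              rw [Finset.mul_sum]
              apply Finset.sum_le_sum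
              intro q hq
              by_cases hqS : q.1 ∈ S
              · refine le_trans (Nat.mul_le_mul_left _ (Finset.card_le_card ?_)) (h3 q.1 hqS q.2)
                intro f hf
                simp only [mem_filter] at hf ⊢
                exact ⟨hf.1, hf.2.2⟩
              · have : (A.filter (fun f => q.1 ∈ S ∧ f q.1 = q.2)) = ∅ := by
                  apply Finset.filter_eq_empty_iff.2
                  intro f hf h
                  exact hqS h.1
                rw [this]
                simp
      have hc2 : 2 * (M * bad.card) ≤ M * ((O i).card * A.card) := by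
        calc 2 * (M * bad.card) ≤ 2 * ∑ v ∈ O i, ∑ q ∈ (univ.filter (fun p : ι × Ω =>
              p.1 ∈ I ∧ p.1 ≠ i ∧ p.2 ∈ O p.1 ∧ Cf i v p.1 p.2)), 2 * A.card :=
              Nat.mul_le_mul_left _ hc1
          _ = ∑ v ∈ O i, (4 * (univ.filter (fun p : ι × Ω =>
              p.1 ∈ I ∧ p.1 ≠ i ∧ p.2 ∈ O p.1 ∧ Cf i v p.1 p.2)).card) * A.card := by
              rw [Finset.mul_sum]
              apply Finset.sum_congr rfl
              intro v hv
              rw [Finset.sum_const, smul_eq_mul]
              ring
          _ ≤ ∑ v ∈ O i, M * A.card := by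
              apply Finset.sum_le_sum
              intro v hv
              exact Nat.mul_le_mul_right _ (hC i hiI v hv)
          _ = M * ((O i).card * A.card) := by
              rw [Finset.sum_const, smul_eq_mul]
              ring
      have : M * (2 * bad.card) ≤ M * ((O i).card * A.card) := by
        calc M * (2 * bad.card) = 2 * (M * bad.card) := by ring
          _ ≤ _ := hc2
      exact Nat.le_of_mul_le_mul_left this hM
    have h5 : P.card = A.card * (O i).card := Finset.card_product _ _
    have h6 : M * A.card ≤ A.card * (O i).card := by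
      rw [mul_comm]
      exact Nat.mul_le_mul_left _ (hO i hiI)
    have h7 : (O i).card * A.card = A.card * (O i).card := mul_comm _ _
    omega

open Classical in
/-- **Selection lemma.** -/
theorem select [Nonempty Ω] (O : ι → Finset Ω) (Cf : ι → Ω → ι → Ω → Prop)
    (hsym : ∀ i v j w, Cf i v j w → Cf j w i v) (M : ℕ) (hM : 0 < M) (I : Finset ι)
    (hO : ∀ i ∈ I, M ≤ (O i).card)
    (hC : ∀ i ∈ I, ∀ v ∈ O i, 4 * (univ.filter (fun p : ι × Ω =>
      p.1 ∈ I ∧ p.1 ≠ i ∧ p.2 ∈ O p.1 ∧ Cf i v p.1 p.2)).card ≤ M) :
    ∃ f : ι → Ω, (∀ i ∈ I, f i ∈ O i) ∧ ∀ i ∈ I, ∀ j ∈ I, i ≠ j → ¬ Cf i (f i) j (f j) := by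
  obtain ⟨w0⟩ := ‹Nonempty Ω›
  have key : ∀ S : Finset ι, S ⊆ I → 0 < (goodFns O Cf w0 S).card := by
    intro S
    induction S using Finset.induction_on with
    | empty =>
      intro _
      apply Finset.card_pos.2
      refine ⟨fun _ => w0, ?_⟩
      simp [goodFns]
    | insert i S hiS ih =>
      intro hsub
      have hS : S ⊆ I := (Finset.subset_insert i S).trans hsub
      have h1 := select_step O Cf hsym w0 M hM I hO hC S.card S rfl hS i
        (hsub (mem_insert_self i S)) hiS
      have h2 := ih hS
      have h3 : 0 < M * (goodFns O Cf w0 S).card := Nat.mul_pos hM h2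
      omega
  obtain ⟨f, hf⟩ := Finset.card_pos.1 (key I (le_refl _))
  simp only [goodFns, mem_filter, mem_univ, true_and] at hf
  exact ⟨f, hf.1, hf.2.2⟩

/-- The selection lemma, stated without filters. -/
theorem select' [Nonempty Ω] (O : ι → Finset Ω) (Cf : ι → Ω → ι → Ω → Prop)
    (hsym : ∀ i v j w, Cf i v j w → Cf j w i v) (M : ℕ) (hM : 0 < M) (I : Finset ι)
    (hO : ∀ i ∈ I, M ≤ (O i).card)
    (hC : ∀ i ∈ I, ∀ v ∈ O i, ∀ S : Finset (ι × Ω), (∀ p ∈ S,
      p.1 ∈ I ∧ p.1 ≠ i ∧ p.2 ∈ O p.1 ∧ Cf i v p.1 p.2) → 4 * S.card ≤ M) :
    ∃ f : ι → Ω, (∀ i ∈ I, f i ∈ O i) ∧ ∀ i ∈ I, ∀ j ∈ I, i ≠ j → ¬ Cf i (f i) j (f j) := by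
  classical
  apply select O Cf hsym M hM I hO
  intro i hi v hv
  apply hC i hi v hv
  intro p hp
  simpa using hp

end Select

end Pool.Agent.Lib.MP_7580b0_co
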